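import Pool.Agent.Helper41_NG.Bar

/-!
From the harmonic inequality to the Foelner condition; noetherian group rings give amenable groups.
-/

set_option autoImplicit false
set_option linter.unusedSectionVars false

namespace Pool.Agent.NG

open Finset
open scoped Pointwise

/-- The right Foelner condition: for every finite set S and every positive eps there is a finite
nonempty set F with card (F S) at most (1 + eps) card F, for S containing 1. -/
def Folner (G : Type*) [Group G] [DecidableEq G] : Prop :=
  ∀ S : Finset G, 1 ∈ S → ∀ ε : ℝ, 0 < ε →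
    ∃ F : Finset G, F.Nonempty ∧ ((F * S).card : ℝ) ≤ (1 + ε) * F.card

theorem folner_of_harmonic {G : Type*} [Group G] [DecidableEq G]
    (h : ∀ S : Finset G, ∃ F : Finset G, F.Nonempty ∧
      ((F * S).card : ℚ) ≤ harmonic S.card * F.card) : Folner G := by
  intro S hS ε hε
  by_contra hcon
  push Not at hcon
  have h1 : ∀ (m : ℕ) (F : Finset G), F.Nonempty →
      (1 + ε) ^ m * F.card ≤ ((F * S ^ m).card : ℝ) := by
    intro m
    induction m with
    | zero => intro F _; simp
    | succ m ih =>
      intro F hF
      have h2 : (F * S ^ m).Nonempty := hF.mul (Nonempty.pow ⟨1, hS⟩)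
      have h3 := hcon (F * S ^ m) h2
      rw [mul_assoc, ← pow_succ] at h3
      have h4 := ih F hF
      calc (1 + ε) ^ (m + 1) * F.card = (1 + ε) * ((1 + ε) ^ m * F.card) := by ring
        _ ≤ (1 + ε) * ((F * S ^ m).card : ℝ) := by gcongr
        _ ≤ _ := h3.le
  have h5 : ∀ m : ℕ, (1 + ε) ^ m ≤ 1 + m * Real.log S.card := by
    intro m
    obtain ⟨F, hF, hle⟩ := h (S ^ m)
    have hFpos : (0 : ℝ) < F.card := by exact_mod_cast card_pos.mpr hF
    have h6 : ((F * S ^ m).card : ℝ) ≤ (harmonic (S ^ m).card : ℝ) * F.card := by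
      exact_mod_cast hle
    have h7 : (harmonic (S ^ m).card : ℝ) ≤ 1 + m * Real.log S.card := by
      refine (harmonic_le_one_add_log _).trans ?_
      have h8 : ((S ^ m).card : ℝ) ≤ (S.card : ℝ) ^ m := by exact_mod_cast card_pow_le
      have h9 : (0 : ℝ) < ((S ^ m).card : ℝ) := by
        exact_mod_cast card_pos.mpr (Nonempty.pow ⟨1, hS⟩)
      have h10 := Real.log_le_log h9 h8
      rw [Real.log_pow] at h10
      linarith
    have h11 := h1 m F hF
    have h12 : (1 + ε) ^ m * F.card ≤ (1 + m * Real.log S.card) * F.card :=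
      h11.trans (h6.trans (by gcongr))
    exact le_of_mul_le_mul_right h12 hFpos
  have h13 : Filter.Tendsto (fun m : ℕ => (1 + (m : ℝ) * Real.log S.card) / (1 + ε) ^ m)
      Filter.atTop (nhds 0) := by
    have a1 : Filter.Tendsto (fun m : ℕ => (m : ℝ) ^ 0 / (1 + ε) ^ m) Filter.atTop (nhds 0) :=
      tendsto_pow_const_div_const_pow_of_one_lt 0 (by linarith)
    have a2 : Filter.Tendsto (fun m : ℕ => (m : ℝ) ^ 1 / (1 + ε) ^ m) Filter.atTop (nhds 0) :=
      tendsto_pow_const_div_const_pow_of_one_lt 1 (by linarith)
    have a3 := a1.add (a2.mul_const (Real.log S.card))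
    simp only [zero_mul, add_zero] at a3
    refine a3.congr fun m => ?_
    ring
  have h14 := (tendsto_order.mp h13).2 1 one_pos
  obtain ⟨m, hm⟩ := h14.exists
  have h15 : (0 : ℝ) < (1 + ε) ^ m := by positivity
  rw [div_lt_one h15] at hm
  exact absurd (h5 m) (not_le.mpr hm)

/-- BARTHOLDI, KIELAK, KROPHOLLER, LORENSEN: if the group ring of G over a domain of characteristic
zero satisfies the strong rank condition (for instance if it is noetherian) then G is amenable. -/
theorem folner_of_strong {G : Type*} [Group G] [DecidableEq G] (K : Type*) [CommRing K]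
    [IsDomain K] [CharZero K] [StrongRankCondition (MonoidAlgebra K G)] : Folner G :=
  folner_of_harmonic fun S => harmonic_of_strong K S

theorem folner_of_noetherian {G : Type*} [Group G] [DecidableEq G]
    (h : IsNoetherianRing (MonoidAlgebra ℤ G)) : Folner G := by
  have := h
  exact folner_of_strong ℤ

end Pool.Agent.NG
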