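import Pool.Agent.Helper41_NG.TrB

/-!
Groups of bounded tree automorphisms with uniform depth (for example finite-state) with the maximal condition on subgroups are
virtually abelian.
-/

set_option autoImplicit false
set_option linter.unusedSectionVars false

namespace Pool.Agent.NG.Tree

variable {X : Type*} [Finite X]

theorem countable_of_fg {G : Type*} [Group G] [Group.FG G] : Countable G := by
  obtain ⟨S, hS⟩ := Group.fg_def.mp (inferInstance : Group.FG G)
  let U : Set G := (S : Set G) ∪ (S : Set G)⁻¹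
  have hU : U.Finite := S.finite_toSet.union S.finite_toSet.inv
  have hUc : Countable U := hU.countable.to_subtype
  have hsurj : Function.Surjective (fun l : List U => (List.map Subtype.val l).prod) := by
    intro g
    have hg : g ∈ Subgroup.closure (S : Set G) := by rw [hS]; exact Subgroup.mem_top g
    have hg' : g ∈ Submonoid.closure U := by
      rw [← Subgroup.closure_toSubmonoid]
      exact hg
    obtain ⟨l, hl, hp⟩ := Submonoid.exists_list_of_mem_closure hg'
    lift l to List U using hl
    exact ⟨l, hp⟩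
  exact hsurj.countable

theorem wf_of_fg {G : Type*} [Group G] (hfg : ∀ H : Subgroup G, H.FG) :
    WellFoundedGT (Subgroup G) := by
  rw [wellFoundedGT_iff_monotone_chain_condition]
  intro a
  obtain ⟨S, hS⟩ := hfg (⨆ n, a n)
  have hdir : Directed (· ≤ ·) a := a.monotone.directed_le
  have h1 : ∀ s ∈ S, ∃ n, s ∈ a n := by
    intro s hs
    have : s ∈ ⨆ n, a n := by rw [← hS]; exact Subgroup.subset_closure hs
    exact (Subgroup.mem_iSup_of_directed hdir).mp this
  choose! f hf using h1
  refine ⟨S.sup f, fun m hm => le_antisymm (a.monotone hm) ?_⟩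
  calc a m ≤ ⨆ n, a n := le_iSup _ m
    _ = Subgroup.closure (S : Set G) := hS.symm
    _ ≤ a (S.sup f) := by
      rw [Subgroup.closure_le]
      intro s hs
      exact a.monotone (Finset.le_sup (f := f) hs) (hf s hs)

variable {G : Type*} [Group G] (φ : G →* Equiv.Perm (List X))

/-- The word w extends below v with constant fixer to every length. -/
def Inf (v w : List X) : Prop :=
  ∀ k : ℕ, ∃ e : List X, e.length = k ∧ Fx φ (v ++ (w ++ e)) = Fx φ v

theorem fx_prefix {v w e : List X} (h : Fx φ (v ++ (w ++ e)) = Fx φ v) :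
    Fx φ (v ++ w) = Fx φ v := by
  apply le_antisymm
  · rw [← h, ← List.append_assoc]
    exact Fx_le φ _ _
  · exact Fx_le φ _ _

theorem Inf.fx {v w : List X} (h : Inf φ v w) : Fx φ (v ++ w) = Fx φ v := by
  obtain ⟨e, _, he⟩ := h 0
  exact fx_prefix φ he

theorem Inf.step {v w : List X} (h : Inf φ v w) : ∃ x, Inf φ v (w ++ [x]) := by
  classical
  by_contra hcon
  simp only [Inf, not_exists, not_forall, not_and] at hcon
  choose k hk using hcon
  have hX : (Set.range k).Finite := Set.finite_range k
  obtain ⟨M, hM⟩ := hX.bddAbove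
  obtain ⟨e, he1, he2⟩ := h (M + 1)
  cases e with
  | nil => simp at he1
  | cons x e =>
    have h1 : k x ≤ M := hM ⟨x, rfl⟩
    have h2 : e.length = M := by simpa using he1
    apply hk x (e.take (k x)) (by rw [List.length_take]; omega)
    have h3 : w ++ x :: e = (w ++ [x] ++ e.take (k x)) ++ e.drop (k x) := by simp
    rw [h3] at he2
    exact fx_prefix φ he2

theorem Inf.ext {v w : List X} (h : Inf φ v w) (k : ℕ) :
    ∃ e : List X, e.length = k ∧ Inf φ v (w ++ e) := by
  induction k with
  | zero => exact ⟨[], rfl, by simpa using h⟩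
  | succ k ih =>
    obtain ⟨e, he1, he2⟩ := ih
    obtain ⟨x, hx⟩ := he2.step
    exact ⟨e ++ [x], by simp [he1], by rw [← List.append_assoc]; exact hx⟩

/-- If the set of such words branches everywhere, it contains inactive vertices. -/
theorem exists_inactive {v : List X}
    (hbr : ∀ w, Inf φ v w → ∃ e e' : List X, e.length = e'.length ∧ e ≠ e' ∧
      Inf φ v (w ++ e) ∧ Inf φ v (w ++ e'))
    (g : Equiv.Perm (List X)) (hg : Bounded g) (w : List X) (hw : Inf φ v w) :
    ∃ e, Inf φ v (w ++ e) ∧ ¬ Act g (v ++ (w ++ e)) := by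
  classical
  by_contra hcon
  push Not at hcon
  obtain ⟨C, hC⟩ := hg
  have hfin : ∀ m, {e : List X | e.length = m ∧ Inf φ v (w ++ e)}.Finite := fun m =>
    (levels_finite m).subset fun _ h => h.1
  let s : ℕ → Finset (List X) := fun m => (hfin m).toFinset
  have hmem : ∀ m e, e ∈ s m ↔ e.length = m ∧ Inf φ v (w ++ e) := fun m e =>
    (hfin m).mem_toFinset
  have hcard : ∀ m, (s m).card ≤ C := by
    intro m
    refine le_trans ?_ (hC ((v ++ w).length + m))
    rw [Set.ncard_eq_toFinset_card _ (act_finite _ _)]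
    refine Finset.card_le_card_of_injOn (fun e => v ++ (w ++ e)) ?_ ?_
    · intro e he
      rw [Finset.mem_coe, hmem] at he
      rw [Finset.mem_coe, Set.Finite.mem_toFinset]
      exact ⟨by simp [he.1]; omega, hcon e he.2⟩
    · intro e _ e' _ h
      simpa using h
  obtain ⟨M, ⟨m, hm⟩, hmax⟩ : ∃ M, M ∈ Set.range (fun m => (s m).card) ∧
      ∀ M' ∈ Set.range (fun m => (s m).card), M' ≤ M := by
    have hb : BddAbove (Set.range fun m => (s m).card) := ⟨C, by rintro _ ⟨m, rfl⟩; exact hcard m⟩
    exact ⟨_, Nat.sSup_mem ⟨_, ⟨0, rfl⟩⟩ hb, fun M' hM' => le_csSup hb hM'⟩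
  obtain ⟨e0, he0, hI0⟩ := hw.ext φ m
  obtain ⟨d, d', hdl, hdne, hd, hd'⟩ := hbr _ hI0
  have hext : ∀ e : List X, ∃ f : List X, f.length = d.length ∧
      (Inf φ v (w ++ e) → Inf φ v (w ++ e ++ f)) := by
    intro e
    by_cases h : Inf φ v (w ++ e)
    · obtain ⟨f, hf1, hf2⟩ := h.ext φ d.length
      exact ⟨f, hf1, fun _ => hf2⟩
    · exact ⟨d, rfl, fun h' => absurd h' h⟩
  choose f hf1 hf2 using hext
  obtain ⟨d1, hd1l, hd1, hd1ne⟩ : ∃ d1 : List X, d1.length = d.length ∧
      Inf φ v (w ++ e0 ++ d1) ∧ d1 ≠ f e0 := by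
    by_cases h : d = f e0
    · exact ⟨d', hdl.symm, hd', fun h' => hdne (h.trans h'.symm)⟩
    · exact ⟨d, rfl, hd, h⟩
  have hnot : e0 ++ d1 ∉ (s m).image fun e => e ++ f e := by
    intro h
    obtain ⟨e, he, heq⟩ := Finset.mem_image.mp h
    rw [hmem] at he
    have h1 : e = e0 := by
      have := congrArg (List.take m) heq
      rwa [List.take_left' he.1, List.take_left' he0] at this
    rw [h1] at heq
    exact hd1ne (List.append_cancel_left heq).symm
  have hsub : insert (e0 ++ d1) ((s m).image fun e => e ++ f e) ⊆ s (m + d.length) := by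
    intro y hy
    rw [Finset.mem_insert, Finset.mem_image] at hy
    rw [hmem]
    rcases hy with rfl | ⟨e, he, rfl⟩
    · refine ⟨by rw [List.length_append]; omega, ?_⟩
      rw [← List.append_assoc]
      exact hd1
    · rw [hmem] at he
      refine ⟨by rw [List.length_append, hf1]; omega, ?_⟩
      rw [← List.append_assoc]
      exact hf2 e he.2
  have h1 := Finset.card_le_card hsub
  rw [Finset.card_insert_of_notMem hnot, Finset.card_image_of_injOn] at h1
  · have h2 := hmax _ ⟨m + d.length, rfl⟩
    simp only at h2 hm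
    omega
  · intro e he e' he' h
    rw [Finset.mem_coe, hmem] at he he'
    have := congrArg (List.take m) h
    simp only at this
    rwa [List.take_left' he.1, List.take_left' he'.1] at this

variable (hφ : ∀ g, IsTreeAut (φ g))
include hφ

theorem good_of_branch [Nonempty X] (hfg : ∀ H : Subgroup G, H.FG) (hb : ∀ g, Bounded (φ g))
    (v : List X) (h0 : Inf φ v [])
    (hbr : ∀ w, Inf φ v w → ∃ e e' : List X, e.length = e'.length ∧ e ≠ e' ∧
      Inf φ v (w ++ e) ∧ Inf φ v (w ++ e')) : Good φ v := by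
  classical
  have hG : Group.FG G := Group.fg_def.mpr (hfg ⊤)
  have hc : Countable G := countable_of_fg
  obtain ⟨f, hf⟩ := exists_surjective_nat G
  have key : ∀ (g : G) (w : {w : List X // Inf φ v w}), ∃ w' : {w : List X // Inf φ v w},
      (∃ u, w'.1 = w.1 ++ u) ∧ ¬ Act (φ g) (v ++ w'.1) := by
    rintro g ⟨w, hw⟩
    obtain ⟨e, he1, he2⟩ := exists_inactive φ hbr (φ g) (hb g) w hw
    exact ⟨⟨w ++ e, he1⟩, ⟨e, rfl⟩, he2⟩
  choose nxt hn1 hn2 using key
  let W : ℕ → {w : List X // Inf φ v w} := fun k =>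
    Nat.rec (motive := fun _ => {w : List X // Inf φ v w}) ⟨[], h0⟩ (fun k w => nxt (f k) w) k
  refine good_of_ray φ hφ hfg hb v (fun k => (W k).1) (fun k => hn1 (f k) (W k))
    (fun k => (W k).2.fx) ?_
  intro g
  obtain ⟨k, rfl⟩ := hf g
  exact ⟨k + 1, hn2 (f k) (W k)⟩

theorem good_of_unique [Nonempty X] (hfg : ∀ H : Subgroup G, H.FG) (hb : ∀ g, Bounded (φ g))
    (hs : ∀ g, UniformDepth (φ g)) (v w : List X) (hw : Inf φ v w)
    (huniq : ∀ e e' : List X, e.length = e'.length → Inf φ v (w ++ e) → Inf φ v (w ++ e') →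
      e = e') : Good φ v := by
  classical
  have key : ∀ z : {z : List X // Inf φ v (w ++ z)}, ∃ x, Inf φ v (w ++ (z.1 ++ [x])) := by
    rintro ⟨z, hz⟩
    obtain ⟨x, hx⟩ := hz.step
    exact ⟨x, by rw [← List.append_assoc]; exact hx⟩
  choose nx hnx using key
  let Z : ℕ → {z : List X // Inf φ v (w ++ z)} := fun k =>
    Nat.rec (motive := fun _ => {z : List X // Inf φ v (w ++ z)}) ⟨[], by simpa using hw⟩
      (fun _ z => ⟨z.1 ++ [nx z], hnx z⟩) k
  refine good_of_isolated φ hφ hfg hb hs v (v ++ w) (fun n => v ++ w ++ (Z n).1)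
    (fun n => nx (Z n)) ?_ ?_ ?_
  · intro n
    change v ++ w ++ ((Z n).1 ++ [nx (Z n)]) = v ++ w ++ (Z n).1 ++ [nx (Z n)]
    rw [List.append_assoc, List.append_assoc, List.append_assoc]
  · intro g hg n
    have h1 := (hφ g).app (v ++ w) (Z n).1
    rw [(mem_St φ).mp hg] at h1
    have hgv : φ g v = v := (mem_St φ).mp (St_append φ hφ hg)
    have h2 : Inf φ v (w ++ sec (φ g) (v ++ w) (Z n).1) := by
      intro k
      obtain ⟨e, he1, he2⟩ := (Z n).2 k
      have h3 := (hφ g).app (v ++ w ++ (Z n).1) e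
      rw [h1] at h3
      refine ⟨sec (φ g) (v ++ w ++ (Z n).1) e, ?_, ?_⟩
      · have h4 := (hφ g).len (v ++ w ++ (Z n).1 ++ e)
        have h5 := (hφ g).len (v ++ w ++ (Z n).1)
        rw [h1] at h5
        rw [h3] at h4
        simp only [List.length_append] at h4 h5
        omega
      · have e1 : v ++ (w ++ sec (φ g) (v ++ w) (Z n).1 ++
            sec (φ g) (v ++ w ++ (Z n).1) e) = φ g (v ++ (w ++ (Z n).1 ++ e)) := by
          have e2 : v ++ (w ++ (Z n).1 ++ e) = v ++ w ++ (Z n).1 ++ e := by simp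
          rw [e2, h3]
          simp
        rw [e1]
        ext h
        rw [Fx_map φ hφ, he2, ← Fx_map φ hφ, hgv]
    have h3 : (sec (φ g) (v ++ w) (Z n).1).length = (Z n).1.length := by
      have h4 := (hφ g).len (v ++ w ++ (Z n).1)
      rw [h1] at h4
      simp only [List.length_append] at h4
      omega
    have h4 := huniq _ _ h3 h2 (Z n).2
    rw [h4] at h1
    exact h1
  · intro n
    have := (Z n).2.fx
    rwa [← List.append_assoc] at this

theorem good_all [Nonempty X] (hfg : ∀ H : Subgroup G, H.FG) (hb : ∀ g, Bounded (φ g))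
    (hs : ∀ g, UniformDepth (φ g)) (v : List X) : Good φ v := by
  classical
  have hwf : WellFoundedGT (Subgroup G) := wf_of_fg hfg
  have main : ∀ H : Subgroup G, ∀ v, Fx φ v = H → Good φ v := by
    intro H
    induction H using hwf.wf.induction with
    | _ H ih =>
      intro v hv
      by_cases h1 : ∃ N : ℕ, ∀ w : List X, w.length = N → Fx φ (v ++ w) ≠ Fx φ v
      · obtain ⟨N, hN⟩ := h1
        refine good_of_level φ hφ v N fun w hw => ?_
        refine ih (Fx φ (v ++ w)) ?_ _ rfl
        rw [← hv]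
        exact lt_of_le_of_ne (Fx_le φ v w) (hN w hw).symm
      · push Not at h1
        have h0 : Inf φ v [] := fun k => by
          obtain ⟨w, hw1, hw2⟩ := h1 k
          exact ⟨w, hw1, by simpa using hw2⟩
        by_cases h2 : ∀ w, Inf φ v w → ∃ e e' : List X, e.length = e'.length ∧ e ≠ e' ∧
            Inf φ v (w ++ e) ∧ Inf φ v (w ++ e')
        · exact good_of_branch φ hφ hfg hb v h0 h2
        · push Not at h2
          obtain ⟨w, hw, h3⟩ := h2
          refine good_of_unique φ hφ hfg hb hs v w hw fun e e' hl he he' => ?_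
          by_contra hne
          exact h3 e e' hl hne he he'
  exact main _ v rfl

/-- THEOREM. A group of bounded automorphisms of a regular rooted tree, with finitary sections of
bounded depth, all of whose subgroups are finitely generated, has an abelian subgroup of finite
index. -/
theorem virtually_abelian [Nonempty X] (hinj : Function.Injective φ)
    (hfg : ∀ H : Subgroup G, H.FG) (hb : ∀ g, Bounded (φ g)) (hs : ∀ g, UniformDepth (φ g)) :
    ∃ L : Subgroup G, L.FiniteIndex ∧ ∀ a ∈ L, ∀ b ∈ L, a * b = b * a := by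
  obtain ⟨L, hL, hc⟩ := good_all φ hφ hfg hb hs []
  refine ⟨L, hL, fun a ha b hb' => ?_⟩
  have h1 := hc a ha b hb'
  have h2 : a * b * a⁻¹ * b⁻¹ = 1 := by
    apply hinj
    rw [map_one]
    ext1 l
    have := h1 l
    simpa using this
  rw [mul_inv_eq_one, mul_inv_eq_iff_eq_mul] at h2
  exact h2

end Pool.Agent.NG.Tree
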