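import Pool.Agent.Helper41_NG.DynB

/-!
Groups acting on a compact space which are locally given by the elements of a virtually cyclic
group, with countably many exceptional points.
-/

set_option autoImplicit false
set_option linter.unusedSectionVars false

namespace Pool.Agent.NG.Dyn

open Filter Topology Set
open scoped commutatorElement

section Exhaust

variable {Λ : Type*} [Group Λ]

/-- A virtually cyclic group is exhausted by finite sets with bounded boundaries. -/
theorem exists_exhaustion (φ : Λ) (hφ : (Subgroup.zpowers φ).FiniteIndex) :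
    ∃ A : ℕ → Set Λ, (∀ n, (A n).Finite) ∧ Monotone A ∧ (∀ a, ∃ n, a ∈ A n) ∧
      ∀ l : Λ, ∃ B : ℕ, ∀ n, {a ∈ A n | l * a ∉ A n}.ncard ≤ B := by
  classical
  have hfq : Finite (Λ ⧸ Subgroup.zpowers φ) := Subgroup.finite_quotient_of_finiteIndex
  have hQf : Fintype (Λ ⧸ Subgroup.zpowers φ) := Fintype.ofFinite _
  let T : Finset Λ := Finset.univ.image (fun q : Λ ⧸ Subgroup.zpowers φ => q.out)
  have hT : ∀ a : Λ, ∃ t ∈ T, ∃ k : ℤ, a = t * φ ^ k := by
    intro a
    refine ⟨(QuotientGroup.mk a : Λ ⧸ Subgroup.zpowers φ).out,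
      Finset.mem_image_of_mem _ (Finset.mem_univ _), ?_⟩
    have h1 : (QuotientGroup.mk (QuotientGroup.mk a : Λ ⧸ Subgroup.zpowers φ).out :
        Λ ⧸ Subgroup.zpowers φ) = QuotientGroup.mk a := QuotientGroup.out_eq' _
    rw [QuotientGroup.eq] at h1
    obtain ⟨k, hk⟩ := Subgroup.mem_zpowers_iff.mp h1
    exact ⟨k, by rw [hk]; group⟩
  let A : ℕ → Set Λ := fun n =>
    (fun p : Λ × ℤ => p.1 * φ ^ p.2) '' ((T : Set Λ) ×ˢ Set.Icc (-(n : ℤ)) n)
  have hmemA : ∀ n a, a ∈ A n ↔ ∃ t ∈ T, ∃ k : ℤ, (-(n : ℤ) ≤ k ∧ k ≤ n) ∧ t * φ ^ k = a := by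
    intro n a
    constructor
    · rintro ⟨⟨t, k⟩, ⟨ht, hk⟩, rfl⟩
      exact ⟨t, ht, k, hk, rfl⟩
    · rintro ⟨t, ht, k, hk, rfl⟩
      exact ⟨⟨t, k⟩, ⟨ht, hk⟩, rfl⟩
  refine ⟨A, fun n => ?_, fun m n hmn a ha => ?_, fun a => ?_, fun l => ?_⟩
  · exact (T.finite_toSet.prod (Set.finite_Icc _ _)).image _
  · rw [hmemA] at ha ⊢
    obtain ⟨t, ht, k, hk, h⟩ := ha
    exact ⟨t, ht, k, ⟨by omega, by omega⟩, h⟩
  · obtain ⟨t, ht, k, rfl⟩ := hT a
    refine ⟨k.natAbs, ?_⟩
    rw [hmemA]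
    exact ⟨t, ht, k, ⟨by omega, by omega⟩, rfl⟩
  · choose r hrT c hc using fun t : Λ => hT (l * t)
    let M : ℕ := T.sup fun t => (c t).natAbs
    have hM : ∀ t ∈ T, (c t).natAbs ≤ M := fun t ht => Finset.le_sup (f := fun t => (c t).natAbs) ht
    let U : ℕ → Set Λ := fun n =>
      (fun p : Λ × ℕ => p.1 * φ ^ ((p.2 : ℤ) - n)) '' ((T : Set Λ) ×ˢ Set.Icc 0 M) ∪
      (fun p : Λ × ℕ => p.1 * φ ^ ((n : ℤ) - p.2)) '' ((T : Set Λ) ×ˢ Set.Icc 0 M)
    have hfinp : ((T : Set Λ) ×ˢ Set.Icc 0 M).Finite := T.finite_toSet.prod (Set.finite_Icc _ _)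
    have hUfin : ∀ n, (U n).Finite := fun n => (hfinp.image _).union (hfinp.image _)
    have hUcard : ∀ n, (U n).ncard ≤ 2 * ((T : Set Λ) ×ˢ Set.Icc 0 M).ncard := by
      intro n
      refine (Set.ncard_union_le _ _).trans ?_
      rw [two_mul]
      exact Nat.add_le_add (Set.ncard_image_le hfinp) (Set.ncard_image_le hfinp)
    refine ⟨2 * ((T : Set Λ) ×ˢ Set.Icc 0 M).ncard, fun n => ?_⟩
    refine (Set.ncard_le_ncard ?_ (hUfin n)).trans (hUcard n)
    rintro a ⟨ha, hla⟩
    rw [hmemA] at ha hla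
    obtain ⟨t, ht, k, hk, rfl⟩ := ha
    have hct := hM t ht
    have h1 : ¬ (-(n : ℤ) ≤ c t + k ∧ c t + k ≤ n) := by
      intro h2
      apply hla
      refine ⟨r t, hrT t, c t + k, h2, ?_⟩
      rw [← mul_assoc, hc t, zpow_add, mul_assoc]
    by_cases h3 : k ≤ M - n
    · left
      refine ⟨⟨t, (k + n).toNat⟩, ⟨ht, ?_⟩, ?_⟩
      · rw [Set.mem_Icc]
        omega
      · change t * φ ^ (((k + n).toNat : ℤ) - n) = t * φ ^ k
        have : (((k + n).toNat : ℤ) - n) = k := by omega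
        rw [this]
    · right
      refine ⟨⟨t, (n - k).toNat⟩, ⟨ht, ?_⟩, ?_⟩
      · rw [Set.mem_Icc]
        omega
      · change t * φ ^ ((n : ℤ) - ((n - k).toNat : ℤ)) = t * φ ^ k
        have : ((n : ℤ) - ((n - k).toNat : ℤ)) = k := by omega
        rw [this]

end Exhaust

variable {G : Type*} [Group G] {X : Type*} [TopologicalSpace X] [MulAction G X]
  [ContinuousConstSMul G X] {Λ : Type*} [Group Λ] [MulAction Λ X] [ContinuousConstSMul Λ X]

/-- g fixes x and is given by c near x. -/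
def Lg (x : X) (g : G) (c : Λ) : Prop := g • x = x ∧ ∀ᶠ y in 𝓝 x, g • y = c • y

theorem Lg.mul {x : X} {g h : G} {c d : Λ} (h1 : Lg x g c) (h2 : Lg x h d) :
    Lg x (g * h) (c * d) := by
  refine ⟨by rw [mul_smul, h2.1, h1.1], ?_⟩
  have ht : Tendsto (fun y : X => h • y) (𝓝 x) (𝓝 x) := by
    have := (continuous_const_smul (T := X) h).continuousAt (x := x)
    rw [ContinuousAt, h2.1] at this
    exact this
  filter_upwards [h2.2, ht.eventually h1.2] with y hy1 hy2
  rw [mul_smul, hy2, hy1, mul_smul]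

theorem Lg.inv {x : X} {g : G} {c : Λ} (h1 : Lg x g c) : Lg x g⁻¹ c⁻¹ := by
  have h3 : g⁻¹ • x = x := by rw [inv_smul_eq_iff, h1.1]
  refine ⟨h3, ?_⟩
  have ht : Tendsto (fun y : X => g⁻¹ • y) (𝓝 x) (𝓝 x) := by
    have := (continuous_const_smul (T := X) g⁻¹).continuousAt (x := x)
    rw [ContinuousAt, h3] at this
    exact this
  filter_upwards [ht.eventually h1.2] with y hy
  rw [smul_inv_smul] at hy
  rw [eq_inv_smul_iff]
  exact hy.symm

theorem Lg.ger {x : X} {g : G} (h : Lg x g (1 : Λ)) : g ∈ Ger G x := by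
  filter_upwards [h.2] with y hy
  rw [hy, one_smul]

variable (G) in
/-- The elements of G which fix x and are given near x by a power of φ. -/
def Lc (φ : Λ) (x : X) : Subgroup G where
  carrier := {g | ∃ c ∈ Subgroup.zpowers φ, Lg x g c}
  mul_mem' := by
    rintro a b ⟨c, hc, hac⟩ ⟨d, hd, hbd⟩
    exact ⟨c * d, mul_mem hc hd, hac.mul hbd⟩
  one_mem' := ⟨1, one_mem _, by simp, by simp⟩
  inv_mem' := by
    rintro a ⟨c, hc, hac⟩
    exact ⟨c⁻¹, inv_mem hc, hac.inv⟩

theorem Lc_le (φ : Λ) (x : X) : Lc G φ x ≤ MulAction.stabilizer G x := by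
  rintro g ⟨c, hc, h⟩
  exact MulAction.mem_stabilizer_iff.mpr h.1

theorem Lc_finiteIndex (φ : Λ) (hφ : (Subgroup.zpowers φ).FiniteIndex) (x : X)
    (hloc : ∀ g : G, ∃ l : Λ, ∀ᶠ y in 𝓝 x, g • y = l • y) :
    ((Lc G φ x).subgroupOf (MulAction.stabilizer G x)).FiniteIndex := by
  classical
  have hfq : Finite (Λ ⧸ Subgroup.zpowers φ) := Subgroup.finite_quotient_of_finiteIndex
  choose l hl using hloc
  set St := MulAction.stabilizer G x with hSt
  have hLg : ∀ g : St, Lg x (g : G) (l g) := fun g => ⟨MulAction.mem_stabilizer_iff.mp g.2, hl g⟩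
  let F : St ⧸ (Lc G φ x).subgroupOf St → Λ ⧸ Subgroup.zpowers φ := fun q =>
    QuotientGroup.mk (l (q.out : G))
  have hF : Function.Injective F := by
    intro q q' h
    have h1 : (l (q.out : G))⁻¹ * l (q'.out : G) ∈ Subgroup.zpowers φ := QuotientGroup.eq.mp h
    have h2 : (QuotientGroup.mk q.out : St ⧸ (Lc G φ x).subgroupOf St) =
        QuotientGroup.mk q'.out := by
      rw [QuotientGroup.eq, Subgroup.mem_subgroupOf]
      exact ⟨_, h1, (hLg q.out).inv.mul (hLg q'.out)⟩
    rwa [QuotientGroup.out_eq', QuotientGroup.out_eq'] at h2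
  have : Finite (St ⧸ (Lc G φ x).subgroupOf St) := Finite.of_injective F hF
  exact Subgroup.finiteIndex_of_finite_quotient

theorem Lc_comm (φ : Λ) (x : X) : ⁅Lc G φ x, Lc G φ x⁆ ≤ Ger G x := by
  rw [Subgroup.commutator_le]
  rintro a ⟨c, hc, hac⟩ b ⟨d, hd, hbd⟩
  obtain ⟨i, rfl⟩ := Subgroup.mem_zpowers_iff.mp hc
  obtain ⟨j, rfl⟩ := Subgroup.mem_zpowers_iff.mp hd
  have h1 := ((hac.mul hbd).mul hac.inv).mul hbd.inv
  have h2 : φ ^ i * φ ^ j * (φ ^ i)⁻¹ * (φ ^ j)⁻¹ = 1 := by
    rw [← zpow_add, ← zpow_neg, ← zpow_add, ← zpow_neg, ← zpow_add]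
    have : i + j + -i + -j = 0 := by ring
    rw [this, zpow_zero]
  rw [h2] at h1
  rw [commutatorElement_def]
  exact h1.ger

/-- THEOREM. Let Λ be a virtually cyclic group of homeomorphisms of a compact Hausdorff space X and
let G be a group acting faithfully by homeomorphisms on X, all of whose subgroups are finitely
generated. Suppose that each element of G moves all the points by elements of a finite subset of
Λ, and that, near each point x which lies outside a countable set or has a finite G-orbit, each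
element of G is given by an element of Λ. Then G has an abelian subgroup of finite index. -/
theorem full [CompactSpace X] [T2Space X] [FaithfulSMul G X] (hfg : ∀ H : Subgroup G, H.FG)
    (φ : Λ) (hφ : (Subgroup.zpowers φ).FiniteIndex)
    (hfin : ∀ g : G, ∃ F : Finset Λ, ∀ x : X, ∃ l ∈ F, g • x = l • x)
    (C : Set X) (hC : C.Countable)
    (hloc : ∀ x : X, (x ∉ C ∨ (MulAction.orbit G x).Finite) →
      ∀ g : G, ∃ l : Λ, ∀ᶠ y in 𝓝 x, g • y = l • y) :
    ∃ L : Subgroup G, L.FiniteIndex ∧ ∀ a ∈ L, ∀ b ∈ L, a * b = b * a := by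
  classical
  obtain ⟨B, hBfin, hBmono, hBcov, hBbd⟩ := exists_exhaustion φ hφ
  refine virtually_abelian hfg C hC (fun x hx hinf => ⟨?_, ?_⟩) (fun x hx => ?_)
  · -- regular points with infinite orbit
    have hle : Lc G φ x ≤ Ger G x := by
      rintro g ⟨c, hc, hg⟩
      obtain ⟨k, rfl⟩ := Subgroup.mem_zpowers_iff.mp hc
      by_cases hk : k = 0
      · subst hk
        rw [zpow_zero] at hg
        exact hg.ger
      · exfalso
        apply hinf
        have hkx : φ ^ k • x = x := by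
          have := hg.2.self_of_nhds
          rw [hg.1] at this
          exact this.symm
        have hper : ∀ j : ℤ, φ ^ j • x = φ ^ (j % k) • x := by
          intro j
          have h1 : φ ^ j = φ ^ (j % k) * (φ ^ k) ^ (j / k) := by
            rw [← zpow_mul, ← zpow_add]
            congr 1
            have := Int.emod_add_mul_ediv j k
            omega
          have h2 : (φ ^ k) ^ (j / k) ∈ MulAction.stabilizer Λ x :=
            zpow_mem (MulAction.mem_stabilizer_iff.mpr hkx) _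
          rw [h1, mul_smul, MulAction.mem_stabilizer_iff.mp h2]
        have hfq : Finite (Λ ⧸ Subgroup.zpowers φ) := Subgroup.finite_quotient_of_finiteIndex
        have hfin1 : (⋃ q : Λ ⧸ Subgroup.zpowers φ,
            (fun j : ℤ => q.out • φ ^ j • x) '' Set.Ico 0 |k|).Finite :=
          Set.finite_iUnion fun q => (Set.finite_Ico _ _).image _
        refine hfin1.subset ?_
        rintro _ ⟨g', rfl⟩
        obtain ⟨F, hF⟩ := hfin g'
        obtain ⟨l, -, hl⟩ := hF x
        rw [mem_iUnion]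
        refine ⟨QuotientGroup.mk l, ?_⟩
        have h1 : (QuotientGroup.mk (QuotientGroup.mk l : Λ ⧸ Subgroup.zpowers φ).out :
            Λ ⧸ Subgroup.zpowers φ) = QuotientGroup.mk l := QuotientGroup.out_eq' _
        rw [QuotientGroup.eq] at h1
        obtain ⟨j, hj⟩ := Subgroup.mem_zpowers_iff.mp h1
        refine ⟨j % k, ⟨Int.emod_nonneg j hk, Int.emod_lt_abs j hk⟩, ?_⟩
        change (QuotientGroup.mk l : Λ ⧸ Subgroup.zpowers φ).out • φ ^ (j % k) • x = g' • x
        rw [hl, ← hper, hj, ← mul_smul, mul_inv_cancel_left]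
    have h1 := Lc_finiteIndex (G := G) φ hφ x (hloc x (Or.inl hx))
    refine Subgroup.finiteIndex_of_le (H := (Lc G φ x).subgroupOf _) ?_
    intro g hg
    rw [Subgroup.mem_subgroupOf] at hg ⊢
    exact hle hg
  · -- exhaustion of the orbit
    refine ⟨fun n => (fun b : Λ => b • x) '' B n, fun n => (hBfin n).image _,
      fun m n hmn => image_mono (hBmono hmn), fun g => ?_, fun g => ?_⟩
    · obtain ⟨F, hF⟩ := hfin g
      obtain ⟨l, -, hl⟩ := hF x
      obtain ⟨n, hn⟩ := hBcov l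
      exact ⟨n, l, hn, hl.symm⟩
    · obtain ⟨F, hF⟩ := hfin g
      choose b hb using hBbd
      refine ⟨∑ l ∈ F, b l, fun n => ?_⟩
      have hsub : {a ∈ (fun b : Λ => b • x) '' B n | g • a ∉ (fun b : Λ => b • x) '' B n} ⊆
          ⋃ l ∈ F, (fun b : Λ => b • x) '' {a ∈ B n | l * a ∉ B n} := by
        rintro _ ⟨⟨a, ha, rfl⟩, hga⟩
        obtain ⟨l, hlF, hl⟩ := hF (a • x)
        simp only [mem_iUnion]
        refine ⟨l, hlF, a, ⟨ha, fun hla => hga ?_⟩, rfl⟩
        refine ⟨l * a, hla, ?_⟩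
        change (l * a) • x = g • a • x
        rw [hl, mul_smul]
      have hfinl : ∀ l ∈ F, ((fun b : Λ => b • x) '' {a ∈ B n | l * a ∉ B n}).Finite :=
        fun l _ => ((hBfin n).subset fun _ h => h.1).image _
      refine (Set.ncard_le_ncard hsub (F.finite_toSet.biUnion hfinl)).trans ?_
      refine (Finset.set_ncard_biUnion_le F _).trans (Finset.sum_le_sum fun l hl => ?_)
      refine (Set.ncard_image_le ((hBfin n).subset fun _ h => h.1)).trans (hb l n)
  · -- finite orbits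
    have h1 := Lc_finiteIndex (G := G) φ hφ x (hloc x (Or.inr hx))
    have h2 : (MulAction.stabilizer G x).FiniteIndex := by
      have : Finite (MulAction.orbit G x) := hx
      have h3 : Finite (G ⧸ MulAction.stabilizer G x) :=
        Finite.of_equiv _ (MulAction.orbitEquivQuotientStabilizer G x)
      exact Subgroup.finiteIndex_of_finite_quotient
    refine P_of x (Lc G φ x) ?_ (Lc_comm φ x)
    rw [Subgroup.finiteIndex_iff, ← Subgroup.relIndex_mul_index (Lc_le (G := G) φ x)]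
    exact Nat.mul_ne_zero h1.index_ne_zero h2.index_ne_zero

end Pool.Agent.NG.Dyn
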