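import Mathlib

/-!
Strong rank condition for a group ring K[G] implies the harmonic Foelner inequality (Bartholdi):
for every finite nonempty S there is a finite nonempty F with card (F S) at most H_n card F, n = card S.
-/

set_option autoImplicit false
set_option linter.unusedSectionVars false

namespace Pool.Agent.NG

open Finset Polynomial
open scoped Pointwise

/-- The weight of a subset with k elements inside a set with n elements. -/
def wt (n k : ℕ) : ℕ := (k - 1).factorial * (n - k).factorial

/-- The combinatorial identity: for m at least one, the weighted count. -/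
theorem sum_wt (N m : ℕ) (hm : 1 ≤ m) :
    m * ∑ l ∈ range (N + 1), N.choose l * (l.factorial * (N + m - (l + 1)).factorial) =
      (N + m).factorial := by
  obtain ⟨m, rfl⟩ : ∃ m', m = m' + 1 := ⟨m - 1, by omega⟩
  have h1 : ∀ l ∈ range (N + 1), N.choose l * (l.factorial * (N + (m + 1) - (l + 1)).factorial) =
      N.factorial * m.factorial * ((N + m - l).choose m) := by
    intro l hl
    have hl' : l ≤ N := by simpa [Nat.lt_succ_iff] using hl
    have e1 : N + (m + 1) - (l + 1) = N + m - l := by omega
    rw [e1]
    have h2 : N.choose l * l.factorial * (N - l).factorial = N.factorial :=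
      Nat.choose_mul_factorial_mul_factorial hl'
    have h3 : (N + m - l).choose m * m.factorial * (N + m - l - m).factorial =
        (N + m - l).factorial := Nat.choose_mul_factorial_mul_factorial (by omega)
    have e2 : N + m - l - m = N - l := by omega
    rw [e2] at h3
    have h4 : 0 < (N - l).factorial := Nat.factorial_pos _
    apply Nat.eq_of_mul_eq_mul_right h4
    calc N.choose l * (l.factorial * (N + m - l).factorial) * (N - l).factorial
        = (N.choose l * l.factorial * (N - l).factorial) * (N + m - l).factorial := by ring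
      _ = N.factorial * ((N + m - l).choose m * m.factorial * (N - l).factorial) := by rw [h2, h3]
      _ = _ := by ring
  rw [sum_congr rfl h1, ← mul_sum]
  have h5 : ∑ l ∈ range (N + 1), (N + m - l).choose m = (N + m + 1).choose (m + 1) := by
    rw [← Nat.sum_Icc_choose (N + m) m]
    refine sum_nbij' (fun l => N + m - l) (fun j => N + m - j) ?_ ?_ ?_ ?_ ?_
    · intro l hl
      rw [mem_range] at hl
      rw [mem_Icc]
      omega
    · intro j hj
      rw [mem_Icc] at hj
      rw [mem_range]
      omega
    · intro l hl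
      rw [mem_range] at hl
      omega
    · intro j hj
      rw [mem_Icc] at hj
      omega
    · intro l _
      rfl
  rw [h5]
  have h6 : (N + m + 1).choose (m + 1) * (m + 1).factorial * (N + m + 1 - (m + 1)).factorial =
      (N + m + 1).factorial := Nat.choose_mul_factorial_mul_factorial (by omega)
  have e3 : N + m + 1 - (m + 1) = N := by omega
  rw [e3, Nat.factorial_succ] at h6
  have e4 : N + (m + 1) = N + m + 1 := by omega
  rw [e4, ← h6]
  ring

/-- For a finset S with n elements, a subset I and an element i of I: the weighted number of subsets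
J of S meeting I exactly in i, times card I, is n factorial. -/
theorem sum_meet {α : Type*} [DecidableEq α] (S I : Finset α) (hI : I ⊆ S) (i : α) (hi : i ∈ I) :
    I.card * ∑ J ∈ S.powerset.filter (fun J => J ∩ I = {i}), wt S.card J.card =
      S.card.factorial := by
  have hm : 1 ≤ I.card := card_pos.mpr ⟨i, hi⟩
  have hcard : (S \ I).card + I.card = S.card := card_sdiff_add_card_eq_card hI
  have h1 : ∑ J ∈ S.powerset.filter (fun J => J ∩ I = {i}), wt S.card J.card =
      ∑ J ∈ (S \ I).powerset, wt S.card (J.card + 1) := by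
    symm
    refine sum_nbij' (fun J => insert i J) (fun J => J.erase i) ?_ ?_ ?_ ?_ ?_
    · intro J hJ
      rw [mem_powerset] at hJ
      rw [mem_filter, mem_powerset]
      constructor
      · exact insert_subset (hI hi) (hJ.trans sdiff_subset)
      · ext x
        simp only [mem_inter, mem_insert, mem_singleton]
        constructor
        · rintro ⟨h | h, h'⟩
          · exact h
          · exact absurd h' (mem_sdiff.mp (hJ h)).2
        · rintro rfl
          exact ⟨Or.inl rfl, hi⟩
    · intro J hJ
      rw [mem_filter, mem_powerset] at hJ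
      rw [mem_powerset]
      intro x hx
      rw [mem_erase] at hx
      rw [mem_sdiff]
      refine ⟨hJ.1 hx.2, fun h => hx.1 ?_⟩
      have : x ∈ J ∩ I := mem_inter.mpr ⟨hx.2, h⟩
      rw [hJ.2] at this
      exact mem_singleton.mp this
    · intro J hJ
      rw [mem_powerset] at hJ
      exact erase_insert (fun h => (mem_sdiff.mp (hJ h)).2 hi)
    · intro J hJ
      rw [mem_filter] at hJ
      have : i ∈ J ∩ I := by rw [hJ.2]; exact mem_singleton_self i
      exact insert_erase (mem_inter.mp this).1
    · intro J hJ
      rw [mem_powerset] at hJ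
      rw [card_insert_of_notMem (fun h => (mem_sdiff.mp (hJ h)).2 hi)]
  rw [h1, sum_powerset_apply_card (fun k => wt S.card (k + 1))]
  rw [← hcard, ← sum_wt (S \ I).card I.card hm]
  rfl

/-- The total weight of the nonempty subsets is n factorial times the harmonic number. -/
theorem sum_total {α : Type*} [DecidableEq α] (S : Finset α) :
    ((∑ J ∈ S.powerset.filter (fun J => J.Nonempty), wt S.card J.card : ℕ) : ℚ) =
      S.card.factorial * harmonic S.card := by
  have h1 : ∑ J ∈ S.powerset.filter (fun J => J.Nonempty), wt S.card J.card =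
      ∑ k ∈ range (S.card + 1), S.card.choose k * (if k = 0 then 0 else wt S.card k) := by
    have := sum_powerset_apply_card (fun k => if k = 0 then 0 else wt S.card k) (x := S)
    simp only [smul_eq_mul] at this
    rw [← this, sum_filter]
    refine sum_congr rfl fun J _ => ?_
    by_cases hJ : J.Nonempty
    · rw [if_pos hJ, if_neg (by have := card_pos.mpr hJ; omega)]
    · rw [if_neg hJ, if_pos (by simpa [not_nonempty_iff_eq_empty] using hJ)]
  rw [h1, sum_range_succ', harmonic]
  simp only [if_true, mul_zero, add_zero, Nat.cast_sum, mul_sum]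
  refine sum_congr rfl fun k hk => ?_
  rw [mem_range] at hk
  rw [if_neg (by omega)]
  have h2 : S.card.choose (k + 1) * (k + 1).factorial * (S.card - (k + 1)).factorial =
      S.card.factorial := Nat.choose_mul_factorial_mul_factorial (by omega)
  have h3 : S.card.choose (k + 1) * wt S.card (k + 1) * (k + 1) = S.card.factorial := by
    rw [← h2, Nat.factorial_succ k, wt, Nat.add_sub_cancel]
    ring
  have h4 : ((k + 1 : ℕ) : ℚ) ≠ 0 := by positivity
  field_simp
  exact_mod_cast h3

section Main

variable {G : Type*} [Group G] [DecidableEq G] (K : Type*) [CommRing K] [IsDomain K] [CharZero K]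

/-- The index type: nonempty subsets of S with multiplicity given by the weight. -/
abbrev Idx (S : Finset G) : Type _ :=
  Σ J : {J : Finset G // J ∈ S.powerset.filter (fun J => J.Nonempty)}, Fin (wt S.card J.1.card)

theorem card_idx (S : Finset G) :
    (Fintype.card (Idx S) : ℚ) = S.card.factorial * harmonic S.card := by
  rw [← sum_total S]
  congr 1
  rw [Fintype.card_sigma]
  simp only [Fintype.card_fin]
  exact Finset.sum_coe_sort (S.powerset.filter (fun J => J.Nonempty)) (fun J => wt S.card J.card)

/-- Distinct integers attached to the pairs (index, element of S). -/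
noncomputable def cnum (S : Finset G) (y : Idx S) (s : S) : K :=
  ((Fintype.equivFin (Idx S × S) (y, s) : ℕ) : K)

theorem cnum_inj (S : Finset G) {y y' : Idx S} {s s' : S} (h : cnum K S y s = cnum K S y' s') :
    y = y' ∧ s = s' := by
  have h1 := Nat.cast_injective (R := K) h
  have h2 := (Fintype.equivFin (Idx S × S)).injective (Fin.ext h1)
  exact Prod.mk.inj h2

/-- The matrix entries. -/
noncomputable def ent (S : Finset G) (i : ℕ) (y : Idx S) : MonoidAlgebra K G :=
  ∑ s : S, if s.1 ∈ y.1.1 then MonoidAlgebra.single s.1 (cnum K S y s ^ i) else 0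

/-- The linear map given by right multiplication with the matrix. -/
noncomputable def bar (S : Finset G) (q : ℕ) :
    (Fin q → MonoidAlgebra K G) →ₗ[MonoidAlgebra K G] (Idx S → MonoidAlgebra K G) where
  toFun v y := ∑ i, v i * ent K S i y
  map_add' v w := by
    funext y
    simp only [Pi.add_apply, add_mul, sum_add_distrib]
  map_smul' r v := by
    funext y
    simp only [Pi.smul_apply, smul_eq_mul, mul_assoc, mul_sum, RingHom.id_apply]

/-- The polynomial of coefficients at a group element. -/
noncomputable def pol (q : ℕ) (v : Fin q → MonoidAlgebra K G) (f : G) : K[X] :=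
  ∑ i : Fin q, C ((v i).coeff f) * X ^ (i : ℕ)

theorem bar_coeff (S : Finset G) (q : ℕ) (v : Fin q → MonoidAlgebra K G) (y : Idx S) (g : G) :
    (bar K S q v y).coeff g =
      ∑ s : S, if s.1 ∈ y.1.1 then (pol K q v (g * s.1⁻¹)).eval (cnum K S y s) else 0 := by
  have h1 : bar K S q v y = ∑ i, v i * ent K S i y := rfl
  rw [h1]
  simp only [MonoidAlgebra.coeff_sum, Finsupp.coe_finsetSum, Finset.sum_apply, ent, mul_sum]
  rw [sum_comm]
  refine sum_congr rfl fun s _ => ?_
  by_cases hs : s.1 ∈ y.1.1
  · simp only [hs, if_true, MonoidAlgebra.coeff_mul_single_apply]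
    simp [pol, eval_finsetSum]
  · simp [hs]

theorem pol_natDegree (q : ℕ) (v : Fin (q + 1) → MonoidAlgebra K G) (f : G) :
    (pol K (q + 1) v f).natDegree ≤ q := by
  refine natDegree_sum_le_of_forall_le _ _ fun i _ => ?_
  refine (natDegree_C_mul_X_pow_le _ _).trans ?_
  omega

theorem pol_coeff (q : ℕ) (v : Fin q → MonoidAlgebra K G) (f : G) (i : Fin q) :
    (pol K q v f).coeff i = (v i).coeff f := by
  simp only [pol, finsetSum_coeff, coeff_C_mul, coeff_X_pow]
  rw [Finset.sum_eq_single i]
  · simp
  · intro j _ hj
    rw [if_neg (fun h => hj (Fin.ext h.symm)), mul_zero]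
  · simp

/-- The union of the supports of the coordinates. -/
noncomputable def sup (q : ℕ) (v : Fin q → MonoidAlgebra K G) : Finset G :=
  univ.biUnion fun i => (v i).coeff.support

theorem mem_sup (q : ℕ) (v : Fin q → MonoidAlgebra K G) (f : G) :
    f ∈ sup K q v ↔ pol K q v f ≠ 0 := by
  constructor
  · intro h h0
    obtain ⟨i, _, hi⟩ := mem_biUnion.mp h
    rw [Finsupp.mem_support_iff, ← pol_coeff K q v f i, h0] at hi
    simp at hi
  · intro h
    by_contra hf
    apply h
    unfold pol
    refine sum_eq_zero fun i _ => ?_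
    have : (v i).coeff f = 0 := by
      by_contra hc
      exact hf (mem_biUnion.mpr ⟨i, mem_univ _, Finsupp.mem_support_iff.mpr hc⟩)
    rw [this]
    simp

/-- The elements s of S with g s⁻¹ in F. -/
def nbr (S F : Finset G) (g : G) : Finset G := S.filter fun s => g * s⁻¹ ∈ F

theorem card_fib (S I : Finset G) (hI : I ⊆ S) (s : G) (hs : s ∈ I) :
    (I.card : ℚ) * ((univ : Finset (Idx S)).filter fun y => y.1.1 ∩ I = {s}).card =
      S.card.factorial := by
  rw [← sum_meet S I hI s hs]
  push_cast
  congr 1
  norm_cast
  have h1 : ((univ : Finset (Idx S)).filter fun y => y.1.1 ∩ I = {s}).card =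
      ∑ J : {J : Finset G // J ∈ S.powerset.filter (fun J => J.Nonempty)},
        if J.1 ∩ I = {s} then wt S.card J.1.card else 0 := by
    rw [card_filter, Fintype.sum_sigma]
    refine sum_congr rfl fun J _ => ?_
    by_cases h : J.1 ∩ I = {s}
    · simp [h]
    · simp [h]
  rw [h1, Finset.sum_coe_sort (S.powerset.filter (fun J => J.Nonempty))
    (fun J => if J ∩ I = {s} then wt S.card J.card else 0), ← sum_filter, filter_filter]
  refine sum_congr ?_ fun _ _ => rfl
  ext J
  simp only [mem_filter, mem_powerset]
  constructor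
  · rintro ⟨h1, _, h3⟩
    exact ⟨h1, h3⟩
  · rintro ⟨h1, h3⟩
    refine ⟨h1, ?_, h3⟩
    have : s ∈ J ∩ I := by rw [h3]; exact mem_singleton_self s
    exact ⟨s, (mem_inter.mp this).1⟩

theorem root_count (S : Finset G) (v : Fin (Fintype.card (Idx S) + 1) → MonoidAlgebra K G)
    (hv : bar K S _ v = 0) (f : G) (hf : f ∈ sup K _ v) :
    ∑ s : S, ((nbr S (sup K _ v) (f * s.1)).card : ℚ)⁻¹ ≤ harmonic S.card := by
  classical
  set F := sup K _ v with hF
  set P := pol K _ v f with hP
  have hP0 : P ≠ 0 := (mem_sup K _ v f).mp hf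
  have hmem : ∀ s : S, s.1 ∈ nbr S F (f * s.1) := by
    intro s
    rw [nbr, mem_filter]
    exact ⟨s.2, by rw [mul_inv_cancel_right]; exact hf⟩
  set Z : Finset (Idx S × S) :=
    univ.filter fun z => z.1.1.1 ∩ nbr S F (f * z.2.1) = {z.2.1} with hZ
  have hroot : ∀ z ∈ Z, P.eval (cnum K S z.1 z.2) = 0 := by
    rintro ⟨y, s⟩ hz
    rw [hZ, mem_filter] at hz
    have hz2 : y.1.1 ∩ nbr S F (f * s.1) = {s.1} := hz.2
    have h1 := bar_coeff K S _ v y (f * s.1)
    rw [hv] at h1
    rw [Finset.sum_eq_single s] at h1
    · have h2 : s.1 ∈ y.1.1 := by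
        have : s.1 ∈ y.1.1 ∩ nbr S F (f * s.1) := by rw [hz2]; exact mem_singleton_self _
        exact (mem_inter.mp this).1
      rw [if_pos h2, mul_inv_cancel_right] at h1
      rw [← h1]
      simp
    · intro s' _ hne
      by_cases h3 : s'.1 ∈ y.1.1
      · rw [if_pos h3]
        have h4 : f * s.1 * s'.1⁻¹ ∉ F := by
          intro h5
          have : s'.1 ∈ y.1.1 ∩ nbr S F (f * s.1) :=
            mem_inter.mpr ⟨h3, mem_filter.mpr ⟨s'.2, h5⟩⟩
          rw [hz2, mem_singleton] at this
          exact hne (Subtype.ext this)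
        rw [mem_sup, not_not] at h4
        rw [h4, eval_zero]
      · rw [if_neg h3]
    · intro h
      exact absurd (mem_univ _) h
  have hcard : Z.card ≤ Fintype.card (Idx S) := by
    have h1 : (Z.image fun z => cnum K S z.1 z.2).card = Z.card := by
      apply card_image_of_injective
      rintro ⟨y, s⟩ ⟨y', s'⟩ h
      obtain ⟨h1, h2⟩ := cnum_inj K S h
      exact Prod.ext h1 h2
    rw [← h1]
    refine le_trans (card_le_card (t := P.roots.toFinset) ?_) ?_
    · intro c hc
      obtain ⟨z, hz, rfl⟩ := mem_image.mp hc
      rw [Multiset.mem_toFinset, mem_roots hP0]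
      exact hroot z hz
    · exact (Multiset.toFinset_card_le _).trans ((card_roots' P).trans (pol_natDegree K _ v f))
  have hZc : Z.card = ∑ s : S,
      ((univ : Finset (Idx S)).filter fun y => y.1.1 ∩ nbr S F (f * s.1) = {s.1}).card := by
    rw [hZ, card_filter, ← univ_product_univ, sum_product_right]
    refine sum_congr rfl fun s _ => ?_
    rw [card_filter]
  have hfac : (0 : ℚ) < S.card.factorial := by exact_mod_cast Nat.factorial_pos _
  have h2 : (S.card.factorial : ℚ) * ∑ s : S, ((nbr S F (f * s.1)).card : ℚ)⁻¹ = Z.card := by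
    rw [hZc, mul_sum]
    push_cast
    refine sum_congr rfl fun s _ => ?_
    have h3 := card_fib S (nbr S F (f * s.1)) (filter_subset _ _) s.1 (hmem s)
    have h4 : ((nbr S F (f * s.1)).card : ℚ) ≠ 0 := by
      have := card_pos.mpr ⟨s.1, hmem s⟩
      positivity
    rw [← h3]
    field_simp
  have h5 : (Z.card : ℚ) ≤ S.card.factorial * harmonic S.card := by
    rw [← card_idx S]
    exact_mod_cast hcard
  rw [← h2] at h5
  exact le_of_mul_le_mul_left h5 hfac

theorem sum_fib (S F : Finset G) :
    ∑ f ∈ F, ∑ s : S, ((nbr S F (f * s.1)).card : ℚ)⁻¹ = (F * S).card := by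
  classical
  have h1 : ∀ f ∈ F, ∑ s : S, ((nbr S F (f * s.1)).card : ℚ)⁻¹ =
      ∑ s ∈ S, ((nbr S F (f * s)).card : ℚ)⁻¹ := fun f _ =>
    Finset.sum_coe_sort S (fun s => ((nbr S F (f * s)).card : ℚ)⁻¹)
  rw [sum_congr rfl h1, ← sum_product']
  have h2 : ∀ x ∈ F ×ˢ S, (fun x : G × G => x.1 * x.2) x ∈ F * S := by
    intro x hx
    rw [mem_product] at hx
    exact mul_mem_mul hx.1 hx.2
  rw [← sum_fiberwise_of_maps_to h2]
  have h3 : ∀ g ∈ F * S, ∑ x ∈ (F ×ˢ S).filter (fun x => x.1 * x.2 = g),
      ((nbr S F (x.1 * x.2)).card : ℚ)⁻¹ = 1 := by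
    intro g hg
    obtain ⟨f, hf, s, hs, rfl⟩ := mem_mul.mp hg
    have h4 : ∀ x ∈ (F ×ˢ S).filter (fun x => x.1 * x.2 = f * s),
        ((nbr S F (x.1 * x.2)).card : ℚ)⁻¹ = ((nbr S F (f * s)).card : ℚ)⁻¹ := by
      intro x hx
      rw [mem_filter] at hx
      rw [hx.2]
    rw [sum_congr rfl h4, sum_const, nsmul_eq_mul]
    have h5 : ((F ×ˢ S).filter (fun x => x.1 * x.2 = f * s)).card = (nbr S F (f * s)).card := by
      refine card_nbij' (fun x => x.2) (fun t => (f * s * t⁻¹, t)) ?_ ?_ ?_ ?_
      · intro x hx
        simp only [coe_filter, Set.mem_ofPred_eq, mem_product] at hx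
        simp only [nbr, coe_filter, Set.mem_ofPred_eq]
        refine ⟨hx.1.2, ?_⟩
        rw [← hx.2, mul_inv_cancel_right]
        exact hx.1.1
      · intro t ht
        simp only [nbr, coe_filter, Set.mem_ofPred_eq] at ht
        simp only [coe_filter, Set.mem_ofPred_eq, mem_product]
        exact ⟨⟨ht.2, ht.1⟩, by group⟩
      · intro x hx
        simp only [coe_filter, Set.mem_ofPred_eq] at hx
        ext
        · simp only
          rw [← hx.2, mul_inv_cancel_right]
        · rfl
      · intro t _
        rfl
    rw [h5]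
    have h6 : ((nbr S F (f * s)).card : ℚ) ≠ 0 := by
      have : 0 < (nbr S F (f * s)).card :=
        card_pos.mpr ⟨s, mem_filter.mpr ⟨hs, by rw [mul_inv_cancel_right]; exact hf⟩⟩
      positivity
    exact mul_inv_cancel₀ h6
  rw [sum_congr rfl h3]
  simp

/-- BARTHOLDI. If K[G] satisfies the strong rank condition then every finite set S has a finite
nonempty F with card (F S) at most H_n card F, n = card S. -/
theorem harmonic_of_strong [StrongRankCondition (MonoidAlgebra K G)] (S : Finset G) :
    ∃ F : Finset G, F.Nonempty ∧ ((F * S).card : ℚ) ≤ harmonic S.card * F.card := by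
  classical
  by_contra hcon
  push Not at hcon
  have hinj : Function.Injective (bar K S (Fintype.card (Idx S) + 1)) := by
    rw [← LinearMap.ker_eq_bot, LinearMap.ker_eq_bot']
    intro v hv
    by_contra hne
    set F := sup K _ v with hF
    have hFne : F.Nonempty := by
      rw [nonempty_iff_ne_empty]
      intro h0
      apply hne
      funext i
      apply MonoidAlgebra.coeff_injective
      ext g
      by_contra hg
      have : g ∈ F := mem_biUnion.mpr ⟨i, mem_univ _, Finsupp.mem_support_iff.mpr hg⟩
      rw [h0] at this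
      exact absurd this (notMem_empty g)
    have h1 := hcon F hFne
    rw [← sum_fib S F] at h1
    have h2 : ∑ f ∈ F, ∑ s : S, ((nbr S F (f * s.1)).card : ℚ)⁻¹ ≤
        ∑ f ∈ F, harmonic S.card := sum_le_sum fun f hf => root_count K S v hv f hf
    rw [sum_const, nsmul_eq_mul, mul_comm] at h2
    exact absurd h1 (not_lt.mpr h2)
  have h3 := card_le_of_injective (MonoidAlgebra K G) (bar K S (Fintype.card (Idx S) + 1)) hinj
  simp at h3

end Main

end Pool.Agent.NG
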