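import Pool.Agent.Helper41_NG.Gro
import Pool.Agent.Helper41_NG.TrC

/-!
Groups acting on a compact space, all of whose subgroups are finitely generated, with orbits
exhausted by finite sets with bounded boundaries: they are virtually abelian.
-/

set_option autoImplicit false
set_option linter.unusedSectionVars false

namespace Pool.Agent.NG.Dyn

open Filter Topology Set

variable {G : Type*} [Group G] {X : Type*} [TopologicalSpace X] [MulAction G X]
  [ContinuousConstSMul G X]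

variable (G) in
/-- The group of the elements which act trivially near x. -/
def Ger (x : X) : Subgroup G where
  carrier := {g | ∀ᶠ y in 𝓝 x, g • y = y}
  mul_mem' := by
    intro a b ha hb
    filter_upwards [ha, hb] with y h1 h2
    rw [mul_smul, h2, h1]
  one_mem' := by simp
  inv_mem' := by
    intro a ha
    filter_upwards [ha] with y hy
    rw [inv_smul_eq_iff, hy]

theorem mem_Ger {x : X} {g : G} : g ∈ Ger G x ↔ ∀ᶠ y in 𝓝 x, g • y = y := Iff.rfl

theorem smul_of_mem_Ger {x : X} {g : G} (h : g ∈ Ger G x) : g • x = x := (mem_Ger.mp h).self_of_nhds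

theorem mem_Ger_smul {x : X} {g : G} (k : G) : g ∈ Ger G (k • x) ↔ k⁻¹ * g * k ∈ Ger G x := by
  have key : ∀ (x : X) (g k : G), g ∈ Ger G (k • x) → k⁻¹ * g * k ∈ Ger G x := by
    intro x g k h
    have h1 : Tendsto (fun y : X => k • y) (𝓝 x) (𝓝 (k • x)) :=
      (continuous_const_smul k).continuousAt
    filter_upwards [h1.eventually (mem_Ger.mp h)] with y hy
    rw [mul_smul, mul_smul, hy, inv_smul_smul]
  refine ⟨key x g k, fun h => ?_⟩
  have h2 := key (k • x) (k⁻¹ * g * k) k⁻¹ (by rwa [inv_smul_smul])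
  have h3 : k⁻¹⁻¹ * (k⁻¹ * g * k) * k⁻¹ = g := by group
  rwa [h3] at h2

theorem eventually_le {H : Subgroup G} (hfg : H.FG) {x : X} (h : H ≤ Ger G x) :
    ∀ᶠ y in 𝓝 x, H ≤ Ger G y := by
  obtain ⟨S, rfl⟩ := hfg
  have h1 : ∀ s ∈ S, ∀ᶠ y in 𝓝 x, s ∈ Ger G y := fun s hs =>
    eventually_eventually_nhds.mpr (h (Subgroup.subset_closure hs))
  have h2 : ∀ᶠ y in 𝓝 x, ∀ s ∈ S, s ∈ Ger G y := (eventually_all_finset S).mpr h1
  filter_upwards [h2] with y hy
  exact (Subgroup.closure_le _).mpr fun s hs => hy s hs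

variable (G) in
/-- The commutators of a subgroup of finite index act trivially near x. -/
def P (x : X) : Prop := ∃ L : Subgroup G, L.Normal ∧ L.FiniteIndex ∧ ⁅L, L⁆ ≤ Ger G x

theorem P_of (x : X) (L : Subgroup G) (hL : L.FiniteIndex) (h : ⁅L, L⁆ ≤ Ger G x) : P G x :=
  ⟨L.normalCore, inferInstance, inferInstance,
    (Subgroup.commutator_mono L.normalCore_le L.normalCore_le).trans h⟩

theorem P.smul {x : X} (h : P G x) (k : G) : P G (k • x) := by
  obtain ⟨L, hn, hL, hc⟩ := h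
  refine ⟨L, hn, hL, fun a ha => ?_⟩
  rw [mem_Ger_smul]
  apply hc
  have h1 : (⁅L, L⁆).Normal := Subgroup.commutator_normal L L
  have h2 := h1.conj_mem a ha k⁻¹
  rwa [inv_inv] at h2

theorem isOpen_P (hfg : ∀ H : Subgroup G, H.FG) : IsOpen {x : X | P G x} := by
  rw [isOpen_iff_mem_nhds]
  rintro x ⟨L, hn, hL, hc⟩
  filter_upwards [eventually_le (hfg _) hc] with y hy
  exact ⟨L, hn, hL, hy⟩

theorem exists_minimal [CompactSpace X] (Y : Set X) (hY : IsClosed Y) (hne : Y.Nonempty)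
    (hinv : ∀ g : G, ∀ y ∈ Y, g • y ∈ Y) :
    ∃ Z ⊆ Y, IsClosed Z ∧ Z.Nonempty ∧ (∀ g : G, ∀ z ∈ Z, g • z ∈ Z) ∧
      ∀ Z' ⊆ Z, IsClosed Z' → Z'.Nonempty → (∀ g : G, ∀ z ∈ Z', g • z ∈ Z') → Z' = Z := by
  let S : Set (Set X) := {Z | IsClosed Z ∧ Z.Nonempty ∧ ∀ g : G, ∀ z ∈ Z, g • z ∈ Z}
  obtain ⟨Z, hZY, hZ⟩ := zorn_superset_nonempty S (fun c hc hch hcne => by
    refine ⟨⋂₀ c, ⟨isClosed_sInter fun Z hZ => (hc hZ).1, ?_, ?_⟩, fun s hs => sInter_subset_of_mem hs⟩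
    · have : Nonempty c := hcne.to_subtype
      rw [sInter_eq_iInter]
      refine IsCompact.nonempty_iInter_of_directed_nonempty_isCompact_isClosed _ ?_
        (fun i => (hc i.2).2.1) (fun i => (hc i.2).1.isCompact) (fun i => (hc i.2).1)
      intro i j
      rcases hch.total i.2 j.2 with h | h
      · exact ⟨i, subset_rfl, h⟩
      · exact ⟨j, h, subset_rfl⟩
    · intro g z hz
      exact mem_sInter.mpr fun Z hZ => (hc hZ).2.2 g z (mem_sInter.mp hz Z hZ)) Y ⟨hY, hne, hinv⟩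
  refine ⟨Z, hZY, hZ.prop.1, hZ.prop.2.1, hZ.prop.2.2, fun Z' h1 h2 h3 h4 => ?_⟩
  exact subset_antisymm h1 (hZ.le_of_le ⟨h2, h3, h4⟩ h1)

theorem min_cover [CompactSpace X] (Z : Set X) (hZ : IsClosed Z)
    (hinv : ∀ g : G, ∀ y ∈ Z, g • y ∈ Z)
    (hmin : ∀ Z' ⊆ Z, IsClosed Z' → Z'.Nonempty → (∀ g : G, ∀ z ∈ Z', g • z ∈ Z') → Z' = Z)
    (U : Set X) (hU : IsOpen U) (hUZ : (Z ∩ U).Nonempty) :
    ∃ T : Finset G, ∀ z ∈ Z, ∃ t ∈ T, t • z ∈ U := by
  have h1 : ∀ z ∈ Z, ∃ g : G, g • z ∈ U := by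
    intro z hz
    by_contra hc
    push Not at hc
    let Z' : Set X := {z ∈ Z | ∀ g : G, g • z ∉ U}
    have h2 : Z' = Z := by
      refine hmin Z' (fun _ h => h.1) ?_ ⟨z, hz, hc⟩ ?_
      · have : Z' = Z ∩ ⋂ g : G, {z | g • z ∉ U} := by
          ext z
          simp [Z']
        rw [this]
        refine hZ.inter (isClosed_iInter fun g => ?_)
        exact (hU.preimage (continuous_const_smul g)).isClosed_compl
      · rintro g z ⟨h3, h4⟩
        refine ⟨hinv g z h3, fun k => ?_⟩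
        rw [← mul_smul]
        exact h4 _
    obtain ⟨y, hy, hyU⟩ := hUZ
    rw [← h2] at hy
    have := hy.2 1
    rw [one_smul] at this
    exact this hyU
  obtain ⟨T, hT⟩ := hZ.isCompact.elim_finite_subcover (fun g : G => {z : X | g • z ∈ U})
    (fun g => hU.preimage (continuous_const_smul g)) (fun z hz => mem_iUnion.mpr (h1 z hz))
  refine ⟨T, fun z hz => ?_⟩
  obtain ⟨t, ht⟩ := mem_iUnion.mp (hT hz)
  obtain ⟨ht1, ht2⟩ := mem_iUnion.mp ht
  exact ⟨t, ht1, ht2⟩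

theorem conj_stab [WellFoundedGT (Subgroup G)] (H : Subgroup G) (g : G)
    (h : ∀ x ∈ H, g * x * g⁻¹ ∈ H) : ∀ x, g * x * g⁻¹ ∈ H → x ∈ H := by
  let f : ℕ → Subgroup G := fun n => H.comap (MulAut.conj (g ^ n)).toMonoidHom
  have hf : ∀ n x, x ∈ f n ↔ g ^ n * x * (g ^ n)⁻¹ ∈ H := fun n x => Iff.rfl
  have hmono : Monotone f := by
    refine monotone_nat_of_le_succ fun n x hx => ?_
    rw [hf] at hx ⊢
    have h1 := h _ hx
    have h2 : g * (g ^ n * x * (g ^ n)⁻¹) * g⁻¹ = g ^ (n + 1) * x * (g ^ (n + 1))⁻¹ := by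
      rw [pow_succ']
      group
    rwa [h2] at h1
  obtain ⟨n, hn⟩ := WellFoundedGT.monotone_chain_condition (⟨f, hmono⟩ : ℕ →o Subgroup G)
  intro x hx
  have h1 : (g ^ n)⁻¹ * x * g ^ n ∈ f (n + 1) := by
    rw [hf]
    have h2 : g ^ (n + 1) * ((g ^ n)⁻¹ * x * g ^ n) * (g ^ (n + 1))⁻¹ = g * x * g⁻¹ := by
      rw [pow_succ']
      group
    rwa [h2]
  have h3 : (g ^ n)⁻¹ * x * g ^ n ∈ f n := by
    have h4 := hn (n + 1) (Nat.le_succ n)
    change f n = f (n + 1) at h4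
    rw [h4]
    exact h1
  rw [hf] at h3
  have h4 : g ^ n * ((g ^ n)⁻¹ * x * g ^ n) * (g ^ n)⁻¹ = x := by group
  rwa [h4] at h3

end Pool.Agent.NG.Dyn
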