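import Pool.Agent.Helper41_NG.Dyn

/-!
The main theorem on groups acting on a compact space with orbits exhausted by finite sets with
bounded boundaries.
-/

set_option autoImplicit false
set_option linter.unusedSectionVars false

namespace Pool.Agent.NG.Dyn

open Filter Topology Set
open scoped commutatorElement

variable {G : Type*} [Group G] {X : Type*} [TopologicalSpace X] [MulAction G X]
  [ContinuousConstSMul G X]

variable (G) in
/-- The orbit of x is exhausted by an increasing sequence of finite sets with boundaries of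
bounded size. -/
def Exh (x : X) : Prop :=
  ∃ A : ℕ → Set X, (∀ n, (A n).Finite) ∧ Monotone A ∧ (∀ g : G, ∃ n, g • x ∈ A n) ∧
    ∀ g : G, ∃ B : ℕ, ∀ n, {a ∈ A n | g • a ∉ A n}.ncard ≤ B

theorem P_of_exh (hfg : ∀ H : Subgroup G, H.FG) (x : X)
    (hst : ((Ger G x).subgroupOf (MulAction.stabilizer G x)).FiniteIndex)
    (K : Subgroup G) (hK : K.FiniteIndex)
    (hKn : ∀ k ∈ K, ∀ h ∈ Ger G x, k * h * k⁻¹ ∈ Ger G x) (hA : Exh G x) : P G x := by
  classical
  obtain ⟨A, hAfin, hAmono, hAcov, hAbd⟩ := hA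
  set N := (Ger G x).subgroupOf K with hN
  have hmemN : ∀ y : K, y ∈ N ↔ (y : G) ∈ Ger G x := fun y => Subgroup.mem_subgroupOf
  have hnorm : N.Normal := by
    refine ⟨fun n hn g => ?_⟩
    rw [hmemN] at hn ⊢
    exact hKn g g.2 n hn
  let rep : K ⧸ N → G := fun γ => (γ.out : K)
  have hrepK : ∀ γ, rep γ ∈ K := fun γ => (γ.out : K).2
  have hmk : ∀ γ : K ⧸ N, (QuotientGroup.mk (⟨rep γ, hrepK γ⟩ : K) : K ⧸ N) = γ := fun γ =>
    QuotientGroup.out_eq' γ
  let o : K ⧸ N → X := fun γ => rep γ • x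
  have ho : ∀ g : K, o (QuotientGroup.mk g) = (g : G) • x := by
    intro g
    have h1 := hmk (QuotientGroup.mk g)
    rw [QuotientGroup.eq, hmemN] at h1
    have h2 := smul_of_mem_Ger h1
    rw [Subgroup.coe_mul, Subgroup.coe_inv, mul_smul, inv_smul_eq_iff] at h2
    exact h2.symm
  have homul : ∀ γ γ' : K ⧸ N, o (γ * γ') = rep γ • o γ' := by
    intro γ γ'
    have h1 := ho (⟨rep γ, hrepK γ⟩ * ⟨rep γ', hrepK γ'⟩)
    rw [QuotientGroup.mk_mul, hmk, hmk, Subgroup.coe_mul, mul_smul] at h1
    exact h1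
  -- the fibres of o
  set St := MulAction.stabilizer G x with hSt
  set Q := St ⧸ (Ger G x).subgroupOf St with hQ
  have hQfin : Finite Q := Subgroup.finite_quotient_of_finiteIndex
  have hfib : ∀ y : X, ∃ F : K ⧸ N → Q, Set.InjOn F {γ | o γ = y} := by
    intro y
    by_cases hy : ∃ γ0, o γ0 = y
    · obtain ⟨γ0, hγ0⟩ := hy
      have hfix : ∀ γ, o γ = y → (rep γ0)⁻¹ * rep γ ∈ St := by
        intro γ hγ
        rw [hSt, MulAction.mem_stabilizer_iff, mul_smul, inv_smul_eq_iff]
        change o γ = o γ0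
        rw [hγ, hγ0]
      refine ⟨fun γ => if h : o γ = y then
        QuotientGroup.mk (⟨(rep γ0)⁻¹ * rep γ, hfix γ h⟩ : St) else QuotientGroup.mk 1, ?_⟩
      intro γ hγ γ' hγ' h
      have hγ1 : o γ = y := hγ
      have hγ2 : o γ' = y := hγ'
      simp only [hγ1, hγ2, dite_true] at h
      rw [QuotientGroup.eq, Subgroup.mem_subgroupOf] at h
      rw [← hmk γ, ← hmk γ', QuotientGroup.eq, hmemN]
      have h2 : ((((⟨(rep γ0)⁻¹ * rep γ, hfix γ hγ⟩ : St)⁻¹ *
          (⟨(rep γ0)⁻¹ * rep γ', hfix γ' hγ'⟩ : St) : St)) : G) = (rep γ)⁻¹ * rep γ' := by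
        simp only [Subgroup.coe_mul, Subgroup.coe_inv]
        group
      rw [h2] at h
      exact h
    · refine ⟨fun _ => QuotientGroup.mk 1, ?_⟩
      intro γ hγ
      exact absurd ⟨γ, hγ⟩ hy
  have hfibfin : ∀ y : X, {γ | o γ = y}.Finite := by
    intro y
    obtain ⟨F, hF⟩ := hfib y
    exact Set.Finite.of_injOn (t := univ) (fun _ _ => mem_univ _) hF finite_univ
  have hfibcard : ∀ (s : Finset (K ⧸ N)) (y : X), (s.filter fun γ => o γ = y).card ≤ Nat.card Q := by
    intro s y
    obtain ⟨F, hF⟩ := hfib y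
    have hQf : Fintype Q := Fintype.ofFinite Q
    rw [Nat.card_eq_fintype_card, ← Finset.card_univ]
    refine Finset.card_le_card_of_injOn F (fun _ _ => Finset.mem_coe.mpr (Finset.mem_univ _)) ?_
    refine hF.mono fun γ hγ => ?_
    exact (Finset.mem_filter.mp (Finset.mem_coe.mp hγ)).2
  have hfinA : ∀ k, {γ : K ⧸ N | o γ ∈ A k}.Finite := fun k =>
    (hAfin k).preimage' fun y _ => hfibfin y
  let A' : ℕ → Finset (K ⧸ N) := fun k => (hfinA k).toFinset
  have hmemA : ∀ k γ, γ ∈ A' k ↔ o γ ∈ A k := fun k γ => (hfinA k).mem_toFinset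
  have hmono : Monotone A' := by
    intro k l hkl γ hγ
    rw [hmemA] at hγ ⊢
    exact hAmono hkl hγ
  have hcov : ∀ γ, ∃ k, γ ∈ A' k := by
    intro γ
    obtain ⟨n, hn⟩ := hAcov (rep γ)
    exact ⟨n, (hmemA n γ).mpr hn⟩
  choose B hB using hAbd
  have hbd : ∀ γ k, Gro.bd A' γ k ≤ Nat.card Q * B (rep γ) := by
    intro γ k
    refine le_trans ?_ (Nat.mul_le_mul_left _ (hB (rep γ) k))
    have hfin : {a ∈ A k | rep γ • a ∉ A k}.Finite := (hAfin k).subset fun _ h => h.1
    rw [Set.ncard_eq_toFinset_card _ hfin, Gro.bd]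
    refine Finset.card_le_mul_card_image_of_maps_to (f := o) ?_ _ (fun y _ => hfibcard _ y)
    intro a ha
    have ha' := Finset.mem_filter.mp ha
    rw [hmemA, hmemA, homul] at ha'
    exact (hfin.mem_toFinset).mpr ha'
  have hKfg : Group.FG K := (Group.fg_iff_subgroup_fg K).mpr (hfg K)
  have : Group.FG (K ⧸ N) := inferInstance
  obtain ⟨z, hz⟩ := Gro.thmT A' hmono hcov _ hbd
  let L0 : Subgroup K := (Subgroup.zpowers z).comap (QuotientGroup.mk' N)
  refine P_of x (L0.map K.subtype) ?_ ?_
  · rw [Subgroup.finiteIndex_iff, Subgroup.index_map_subtype]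
    refine Nat.mul_ne_zero ?_ hK.index_ne_zero
    rw [Subgroup.index_comap_of_surjective _ (QuotientGroup.mk'_surjective N)]
    exact hz.index_ne_zero
  · rw [Subgroup.commutator_le]
    rintro _ ⟨a, ha, rfl⟩ _ ⟨b, hb', rfl⟩
    have h1 : (QuotientGroup.mk' N a) ∈ Subgroup.zpowers z := ha
    have h2 : (QuotientGroup.mk' N b) ∈ Subgroup.zpowers z := hb'
    obtain ⟨i, hi⟩ := Subgroup.mem_zpowers_iff.mp h1
    obtain ⟨j, hj⟩ := Subgroup.mem_zpowers_iff.mp h2
    have h3 : QuotientGroup.mk' N (a * b * a⁻¹ * b⁻¹) = 1 := by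
      rw [map_mul, map_mul, map_mul, map_inv, map_inv, ← hi, ← hj, ← zpow_add, ← zpow_neg,
        ← zpow_add, ← zpow_neg, ← zpow_add]
      have : i + j + -i + -j = 0 := by ring
      rw [this, zpow_zero]
    rw [QuotientGroup.mk'_apply, QuotientGroup.eq_one_iff, hmemN] at h3
    exact h3

/-- MAIN THEOREM, local form. -/
theorem all_P [CompactSpace X] [T2Space X] (hfg : ∀ H : Subgroup G, H.FG) (C : Set X)
    (hC : C.Countable)
    (h1 : ∀ x : X, x ∉ C → (MulAction.orbit G x).Infinite →
      ((Ger G x).subgroupOf (MulAction.stabilizer G x)).FiniteIndex ∧ Exh G x)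
    (h2 : ∀ x : X, (MulAction.orbit G x).Finite → P G x) (x : X) : P G x := by
  classical
  by_contra hx
  have hGfg : Group.FG G := Group.fg_def.mpr (hfg ⊤)
  have hGc : Countable G := Tree.countable_of_fg
  have hwf : WellFoundedGT (Subgroup G) := Tree.wf_of_fg hfg
  have hSc : Countable (Subgroup G) := by
    have hsurj : Function.Surjective (fun S : Finset G => Subgroup.closure (S : Set G)) :=
      fun H => hfg H
    exact hsurj.countable
  obtain ⟨Z, hZY, hZc, hZne, hZinv, hmin⟩ := exists_minimal (G := G) {x : X | ¬ P G x}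
    (isOpen_P hfg).isClosed_compl ⟨x, hx⟩ (fun g y hy hc => hy (by
      have := hc.smul g⁻¹
      rwa [inv_smul_smul] at this))
  have hinf : ∀ z ∈ Z, (MulAction.orbit G z).Infinite := fun z hz hc => hZY hz (h2 z hc)
  have hcover := min_cover Z hZc hZinv hmin
  have : CompactSpace Z := isCompact_iff_compactSpace.mp hZc.isCompact
  have : Nonempty Z := hZne.to_subtype
  have hCc : Countable C := hC.to_subtype
  let E : Subgroup G → Set Z := fun H => {z : Z | (z : X) ∉ C ∧ Ger G (z : X) = H}
  let f : Subgroup G ⊕ C → Set Z := fun i => Sum.elim (fun H => closure (E H))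
    (fun c => {z : Z | (z : X) = c}) i
  have hfc : ∀ i, IsClosed (f i) := by
    rintro (H | c)
    · exact isClosed_closure
    · exact isClosed_singleton.preimage continuous_subtype_val
  have hfU : ⋃ i, f i = univ := by
    rw [eq_univ_iff_forall]
    intro z
    rw [mem_iUnion]
    by_cases hz : (z : X) ∈ C
    · exact ⟨Sum.inr ⟨z, hz⟩, rfl⟩
    · exact ⟨Sum.inl (Ger G (z : X)), subset_closure ⟨hz, rfl⟩⟩
  obtain ⟨i, w, hw⟩ := nonempty_interior_of_iUnion_of_closed hfc hfU
  obtain ⟨V, hV, hVi⟩ := isOpen_induced_iff.mp (isOpen_interior (s := f i))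
  have hVmem : ∀ z : Z, (z : X) ∈ V ↔ z ∈ interior (f i) := fun z => by rw [← hVi]; rfl
  obtain ⟨T, hT⟩ := hcover V hV ⟨w, w.2, (hVmem w).mpr hw⟩
  have hT' : ∀ z (hz : z ∈ Z), ∃ t ∈ T, (⟨t • z, hZinv t z hz⟩ : Z) ∈ interior (f i) := by
    intro z hz
    obtain ⟨t, ht, htz⟩ := hT z hz
    exact ⟨t, ht, (hVmem _).mp htz⟩
  rcases i with H | c
  · -- the main case
    have hle : ∀ z : Z, z ∈ interior (closure (E H)) → Ger G (z : X) ≤ H := by
      intro z hz
      have ev : ∀ᶠ y in 𝓝 (z : X), Ger G (z : X) ≤ Ger G y := eventually_le (hfg _) le_rfl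
      have ev' : ∀ᶠ y : Z in 𝓝 z, Ger G (z : X) ≤ Ger G (y : X) :=
        continuous_subtype_val.continuousAt.eventually ev
      obtain ⟨e, he1, he2⟩ :=
        ((mem_closure_iff_frequently.mp (interior_subset hz)).and_eventually ev').exists
      rw [← he1.2]
      exact he2
    obtain ⟨z, ⟨hzC, hzH⟩, hzI⟩ : (E H ∩ interior (closure (E H))).Nonempty := by
      rw [← closure_inter_open_nonempty_iff isOpen_interior]
      exact ⟨w, interior_subset hw, hw⟩
    have hst := h1 z hzC (hinf z z.2)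
    have hret : ∀ g : G, (⟨g • (z : X), hZinv g z z.2⟩ : Z) ∈ interior (closure (E H)) →
        ∀ h ∈ H, g * h * g⁻¹ ∈ H := by
      intro g hg h hh
      apply hle _ hg
      change g * h * g⁻¹ ∈ Ger G (g • (z : X))
      rw [mem_Ger_smul, hzH]
      have : g⁻¹ * (g * h * g⁻¹) * g = h := by group
      rwa [this]
    let K : Subgroup G :=
      { carrier := {g | ∀ h, h ∈ H ↔ g * h * g⁻¹ ∈ H}
        mul_mem' := by
          intro a b ha hb h
          rw [hb h, ha]
          have : a * (b * h * b⁻¹) * a⁻¹ = a * b * h * (a * b)⁻¹ := by group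
          rw [this]
        one_mem' := by
          intro h
          simp
        inv_mem' := by
          intro a ha h
          rw [ha (a⁻¹ * h * a⁻¹⁻¹)]
          have : a * (a⁻¹ * h * a⁻¹⁻¹) * a⁻¹ = h := by group
          rw [this] }
    have hretK : ∀ g : G, (⟨g • (z : X), hZinv g z z.2⟩ : Z) ∈ interior (closure (E H)) →
        g ∈ K := fun g hg h =>
      ⟨fun hh => hret g hg h hh, conj_stab H g (hret g hg) h⟩
    have hKfin : K.FiniteIndex := by
      have hfinq : Finite (G ⧸ K) := by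
        have hsurj : Function.Surjective (fun t : T => (QuotientGroup.mk ((t : G)⁻¹) : G ⧸ K)) := by
          intro q
          obtain ⟨g, rfl⟩ := QuotientGroup.mk_surjective q
          obtain ⟨t, ht, htz⟩ := hT' (g • (z : X)) (hZinv g z z.2)
          refine ⟨⟨t, ht⟩, ?_⟩
          rw [QuotientGroup.eq, inv_inv]
          refine hretK (t * g) ?_
          have h3 : (⟨(t * g) • (z : X), hZinv _ z z.2⟩ : Z) =
              ⟨t • g • (z : X), hZinv t _ (hZinv g z z.2)⟩ := Subtype.ext (mul_smul t g (z : X))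
          rw [h3]
          exact htz
        exact Finite.of_surjective _ hsurj
      exact Subgroup.finiteIndex_of_finite_quotient
    refine hZY z.2 (P_of_exh hfg (z : X) hst.1 K hKfin (fun k hk h hh => ?_) hst.2)
    rw [hzH] at hh ⊢
    exact (hk h).mp hh
  · -- an isolated point
    have hw0 : w ∈ {z : Z | (z : X) = c} := (interior_subset hw : w ∈ f (Sum.inr c))
    have hw' : (w : X) = c := hw0
    have hsub : Z ⊆ (fun t : G => t⁻¹ • (c : X)) '' (T : Set G) := by
      intro z hz
      obtain ⟨t, ht, htz⟩ := hT' z hz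
      have h4 : (⟨t • z, hZinv t z hz⟩ : Z) ∈ {z : Z | (z : X) = c} :=
        (interior_subset htz : _ ∈ f (Sum.inr c))
      have h3 : t • z = c := h4
      refine ⟨t, ht, ?_⟩
      change t⁻¹ • (c : X) = z
      rw [← h3, inv_smul_smul]
    have hZfin : Z.Finite := (T.finite_toSet.image _).subset hsub
    refine hinf w w.2 (hZfin.subset ?_)
    rintro _ ⟨g, rfl⟩
    exact hZinv g w w.2

/-- THEOREM. Let G act faithfully by homeomorphisms on a compact Hausdorff space X, all the
subgroups of G being finitely generated. Suppose that, off a countable set of points, the infinite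
orbits are exhausted by finite sets with bounded boundaries and a subgroup of finite index of the
stabilizer of each of their points x acts trivially near x, and that for each x with finite orbit
the commutators of a subgroup of finite index act trivially near x. Then G has an abelian subgroup
of finite index. -/
theorem virtually_abelian [CompactSpace X] [T2Space X] [FaithfulSMul G X]
    (hfg : ∀ H : Subgroup G, H.FG) (C : Set X) (hC : C.Countable)
    (h1 : ∀ x : X, x ∉ C → (MulAction.orbit G x).Infinite →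
      ((Ger G x).subgroupOf (MulAction.stabilizer G x)).FiniteIndex ∧ Exh G x)
    (h2 : ∀ x : X, (MulAction.orbit G x).Finite → P G x) :
    ∃ L : Subgroup G, L.FiniteIndex ∧ ∀ a ∈ L, ∀ b ∈ L, a * b = b * a := by
  classical
  have hP := all_P hfg C hC h1 h2
  choose L hLn hLf hLc using hP
  obtain ⟨T, hT⟩ := CompactSpace.elim_nhds_subcover
    (fun x : X => {y : X | ⁅L x, L x⁆ ≤ Ger G y}) (fun x => eventually_le (hfg _) (hLc x))
  refine ⟨⨅ x ∈ T, L x, ?_, ?_⟩
  · have : ∀ x ∈ T, (L x).FiniteIndex := fun x _ => hLf x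
    exact Subgroup.finiteIndex_iInf' (f := L) this
  · intro a ha b hb
    have hab : ⁅a, b⁆ = 1 := by
      apply FaithfulSMul.eq_of_smul_eq_smul (α := X)
      intro y
      rw [one_smul]
      have hy : y ∈ ⋃ x ∈ T, {y : X | ⁅L x, L x⁆ ≤ Ger G y} := by
        rw [hT]
        trivial
      simp only [mem_iUnion] at hy
      obtain ⟨x, hxT, hxy⟩ := hy
      refine smul_of_mem_Ger (hxy (Subgroup.commutator_mem_commutator ?_ ?_))
      · exact (Subgroup.mem_iInf.mp ((Subgroup.mem_iInf.mp ha) x)) hxT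
      · exact (Subgroup.mem_iInf.mp ((Subgroup.mem_iInf.mp hb) x)) hxT
    exact commutatorElement_eq_one_iff_mul_comm.mp hab

end Pool.Agent.NG.Dyn
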