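import Mathlib

/-!
THEOREM T. A finitely generated group exhausted by finite sets with bounded boundary has a cyclic
subgroup of finite index.
-/

set_option autoImplicit false
set_option linter.unusedSectionVars false

namespace Pool.Agent.NG.Gro

open Finset
open scoped Pointwise

section Words

variable {Γ : Type*} [Group Γ] (S : Finset Γ)

/-- The list uses only letters of S. -/
def Over (l : List Γ) : Prop := ∀ x ∈ l, x ∈ S

/-- Injective numbering of the letters by positive integers up to card S. -/
noncomputable def code (x : Γ) : ℕ := by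
  classical exact if h : x ∈ S then (S.equivFin ⟨x, h⟩ : ℕ) + 1 else 1

theorem code_pos (x : Γ) : 1 ≤ code S x := by
  unfold code
  split <;> omega

theorem code_lt (hS : S.Nonempty) (x : Γ) : code S x < S.card + 1 := by
  unfold code
  split
  · rename_i h
    have := (S.equivFin ⟨x, h⟩).2
    omega
  · have := card_pos.mpr hS
    omega

theorem code_inj {x y : Γ} (hx : x ∈ S) (hy : y ∈ S) (h : code S x = code S y) : x = y := by
  unfold code at h
  rw [dif_pos hx, dif_pos hy] at h
  have h1 : S.equivFin ⟨x, hx⟩ = S.equivFin ⟨y, hy⟩ := Fin.ext (by omega)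
  have h2 := S.equivFin.injective h1
  exact congrArg Subtype.val h2

/-- The value of a word in base card S + 1. -/
noncomputable def val : List Γ → ℕ
  | [] => 0
  | x :: l => code S x * (S.card + 1) ^ l.length + val l

theorem val_append (a b : List Γ) :
    val S (a ++ b) = val S a * (S.card + 1) ^ b.length + val S b := by
  induction a with
  | nil => simp [val]
  | cons x a ih =>
    simp only [List.cons_append, val, ih, List.length_append, pow_add]
    ring

theorem val_lt (hS : S.Nonempty) (l : List Γ) : val S l < (S.card + 1) ^ l.length := by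
  induction l with
  | nil => simp [val]
  | cons x l ih =>
    have h1 := code_lt S hS x
    simp only [val, List.length_cons, pow_succ]
    calc code S x * (S.card + 1) ^ l.length + val S l
        < code S x * (S.card + 1) ^ l.length + (S.card + 1) ^ l.length := by omega
      _ = (code S x + 1) * (S.card + 1) ^ l.length := by ring
      _ ≤ (S.card + 1) * (S.card + 1) ^ l.length := Nat.mul_le_mul_right _ (by omega)
      _ = _ := by ring

theorem le_val (x : Γ) (l : List Γ) : (S.card + 1) ^ l.length ≤ val S (x :: l) := by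
  have h1 := code_pos S x
  simp only [val]
  calc (S.card + 1) ^ l.length = 1 * (S.card + 1) ^ l.length := by ring
    _ ≤ code S x * (S.card + 1) ^ l.length := Nat.mul_le_mul_right _ h1
    _ ≤ _ := Nat.le_add_right _ _

theorem length_le_of_val_le (hS : S.Nonempty) {a b : List Γ} (h : val S a ≤ val S b) :
    a.length ≤ b.length := by
  cases a with
  | nil => simp
  | cons x a =>
    have h1 := le_val S x a
    have h2 := val_lt S hS b
    have h3 : (S.card + 1) ^ a.length < (S.card + 1) ^ b.length := by omega
    have h4 : a.length < b.length := by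
      by_contra hc
      have h5 := Nat.pow_le_pow_right (n := S.card + 1) (by omega) (not_lt.mp hc)
      omega
    simpa using h4

theorem val_inj (hS : S.Nonempty) : ∀ {a b : List Γ}, Over S a → Over S b → val S a = val S b →
    a = b := by
  intro a
  induction a with
  | nil =>
    intro b _ _ h
    have := length_le_of_val_le S hS h.ge
    simp at this
    exact this.symm
  | cons x a ih =>
    intro b ha hb h
    have l1 := length_le_of_val_le S hS h.le
    have l2 := length_le_of_val_le S hS h.ge
    cases b with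
    | nil => simp at l1
    | cons y b =>
      have hl : a.length = b.length := by
        simp only [List.length_cons] at l1 l2
        omega
      simp only [val, hl] at h
      have h1 := val_lt S hS a
      have h2 := val_lt S hS b
      rw [hl] at h1
      set M := (S.card + 1) ^ b.length with hM
      have hMpos : 0 < M := by positivity
      have h3 : code S x = code S y := by
        have e1 : (code S x * M + val S a) / M = code S x := by
          rw [Nat.add_div_of_dvd_right (Dvd.intro_left _ rfl), Nat.mul_div_cancel _ hMpos,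
            Nat.div_eq_of_lt h1, add_zero]
        have e2 : (code S y * M + val S b) / M = code S y := by
          rw [Nat.add_div_of_dvd_right (Dvd.intro_left _ rfl), Nat.mul_div_cancel _ hMpos,
            Nat.div_eq_of_lt h2, add_zero]
        rw [← e1, h, e2]
      have h4 : x = y := code_inj S (ha x List.mem_cons_self) (hb y List.mem_cons_self) h3
      have h5 : val S a = val S b := by
        rw [h3] at h
        omega
      rw [h4, ih (fun z hz => ha z (List.mem_cons_of_mem _ hz))
        (fun z hz => hb z (List.mem_cons_of_mem _ hz)) h5]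

/-- Minimal words: least value among the words with the same product. -/
def Mini (l : List Γ) : Prop := Over S l ∧ ∀ l', Over S l' → l'.prod = l.prod → val S l ≤ val S l'

theorem Over.append {a b : List Γ} (ha : Over S a) (hb : Over S b) : Over S (a ++ b) := by
  intro x hx
  rcases List.mem_append.mp hx with h | h
  · exact ha x h
  · exact hb x h

theorem Mini.mid (hS : S.Nonempty) {a b c : List Γ} (h : Mini S (a ++ b ++ c)) : Mini S b := by
  have ha : Over S a := fun x hx => h.1 x (by simp [hx])
  have hb : Over S b := fun x hx => h.1 x (by simp [hx])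
  have hc : Over S c := fun x hx => h.1 x (by simp [hx])
  refine ⟨hb, fun b' hb' hp => ?_⟩
  by_contra hlt
  push Not at hlt
  have h1 := h.2 (a ++ b' ++ c) (Over.append S (Over.append S ha hb') hc) (by simp [hp])
  rw [val_append, val_append S a b, val_append S (a ++ b') c, val_append S a b'] at h1
  have h2 := length_le_of_val_le S hS hlt.le
  have h3 := Nat.pow_le_pow_right (n := S.card + 1) (by omega) h2
  have h4 : val S a * (S.card + 1) ^ b'.length + val S b' <
      val S a * (S.card + 1) ^ b.length + val S b := by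
    have := Nat.mul_le_mul_left (val S a) h3
    omega
  have h5 := Nat.mul_lt_mul_of_pos_right h4 (show 0 < (S.card + 1) ^ c.length by positivity)
  omega

theorem Mini.take (hS : S.Nonempty) {l : List Γ} (h : Mini S l) (n : ℕ) : Mini S (l.take n) := by
  have : l = [] ++ l.take n ++ l.drop n := by simp
  rw [this] at h
  exact Mini.mid S hS h

theorem Mini.drop (hS : S.Nonempty) {l : List Γ} (h : Mini S l) (n : ℕ) : Mini S (l.drop n) := by
  have : l = l.take n ++ l.drop n ++ [] := by simp
  rw [this] at h
  exact Mini.mid S hS h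

theorem mini_unique (hS : S.Nonempty) {a b : List Γ} (ha : Mini S a) (hb : Mini S b)
    (h : a.prod = b.prod) : a = b :=
  val_inj S hS ha.1 hb.1 (le_antisymm (ha.2 b hb.1 h.symm) (hb.2 a ha.1 h))

theorem exists_mini (l : List Γ) (hl : Over S l) : ∃ m, Mini S m ∧ m.prod = l.prod := by
  classical
  have hex : ∃ v, ∃ m, Over S m ∧ m.prod = l.prod ∧ val S m = v := ⟨_, l, hl, rfl, rfl⟩
  obtain ⟨m, h1, h2, h3⟩ := Nat.find_spec hex
  refine ⟨m, ⟨h1, fun l' hl' hp => ?_⟩, h2⟩
  rw [h3]
  exact Nat.find_min' hex ⟨l', hl', hp.trans h2, rfl⟩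

theorem Mini.prod_ne_one (hS : S.Nonempty) {l : List Γ} (h : Mini S l) (hne : l ≠ []) :
    l.prod ≠ 1 := by
  intro h1
  apply hne
  have h2 : Mini S ([] : List Γ) := ⟨fun x hx => by simp at hx, fun _ _ _ => by simp [val]⟩
  exact mini_unique S hS h h2 (by simpa using h1)

end Words

section Growth

variable {Γ : Type*} [Group Γ] [DecidableEq Γ] (S : Finset Γ)

/-- The ball of radius r. -/
def ball (r : ℕ) : Finset Γ := (insert 1 S) ^ r

theorem prod_mem_ball : ∀ (l : List Γ) (r : ℕ), Over S l → l.length ≤ r → l.prod ∈ ball S r := by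
  intro l r
  induction r generalizing l with
  | zero =>
    intro _ h
    have : l = [] := List.eq_nil_of_length_eq_zero (by omega)
    subst this
    simp [ball]
  | succ r ih =>
    intro hl h
    rw [ball, pow_succ']
    cases l with
    | nil =>
      have h1 : (1 : Γ) ∈ insert 1 S := mem_insert_self _ _
      have h2 : (1 : Γ) ∈ (insert 1 S) ^ r := by
        have := ih [] (fun x hx => by simp at hx) (by simp)
        simpa [ball] using this
      have h3 := mul_mem_mul h1 h2
      rw [mul_one] at h3
      simpa using h3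
    | cons x l =>
      rw [List.prod_cons]
      refine mul_mem_mul (mem_insert_of_mem (hl x List.mem_cons_self)) ?_
      exact ih l (fun y hy => hl y (List.mem_cons_of_mem _ hy)) (by simpa using h)

/-- Elements whose minimal word has length m. -/
noncomputable def sph (m : ℕ) : Finset Γ := by
  classical exact (ball S m).filter fun g => ∃ l, Mini S l ∧ l.length = m ∧ l.prod = g

theorem mem_sph {m : ℕ} {g : Γ} : g ∈ sph S m ↔ ∃ l, Mini S l ∧ l.length = m ∧ l.prod = g := by
  classical
  rw [sph, mem_filter]
  constructor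
  · exact fun h => h.2
  · rintro ⟨l, h1, h2, rfl⟩
    exact ⟨prod_mem_ball S l m h1.1 h2.le, l, h1, h2, rfl⟩

theorem ball_mono {r r' : ℕ} (h : r ≤ r') : ball S r ⊆ ball S r' :=
  pow_subset_pow_right (mem_insert_self _ _) h

theorem sum_sph (hS : S.Nonempty) (r : ℕ) :
    ∑ m ∈ range (r + 1), (sph S m).card ≤ (ball S r).card := by
  classical
  rw [← card_biUnion]
  · refine card_le_card fun g hg => ?_
    obtain ⟨m, hm, hg⟩ := mem_biUnion.mp hg
    rw [mem_range] at hm
    have := (mem_filter.mp hg).1
    exact ball_mono S (by omega) this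
  · intro m _ m' _ hne
    rw [Function.onFun, disjoint_left]
    intro g h1 h2
    obtain ⟨l, a1, a2, a3⟩ := (mem_sph S).mp h1
    obtain ⟨l', b1, b2, b3⟩ := (mem_sph S).mp h2
    have := mini_unique S hS a1 b1 (a3.trans b3.symm)
    subst this
    exact hne (a2.symm.trans b2)

variable (A : ℕ → Finset Γ)

/-- The size of the boundary for left multiplication by g. -/
def bd (g : Γ) (n : ℕ) : ℕ := ((A n).filter fun a => g * a ∉ A n).card

theorem bd_one (n : ℕ) : bd A 1 n = 0 := by
  rw [bd, card_eq_zero, filter_eq_empty_iff]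
  intro a ha
  simpa using ha

theorem bd_mul (g h : Γ) (n : ℕ) : bd A (g * h) n ≤ bd A g n + bd A h n := by
  classical
  have h1 : ((A n).filter fun a => g * h * a ∉ A n) ⊆
      ((A n).filter fun a => h * a ∉ A n) ∪
      (((A n).filter fun a => g * a ∉ A n).image fun a => h⁻¹ * a) := by
    intro a ha
    rw [mem_filter] at ha
    rw [mem_union]
    by_cases hc : h * a ∈ A n
    · right
      rw [mem_image]
      exact ⟨h * a, mem_filter.mpr ⟨hc, by rw [← mul_assoc]; exact ha.2⟩, by group⟩
    · left
      exact mem_filter.mpr ⟨ha.1, hc⟩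
  calc bd A (g * h) n ≤ _ := card_le_card h1
    _ ≤ _ := card_union_le _ _
    _ ≤ bd A h n + bd A g n := Nat.add_le_add_left card_image_le _
    _ = _ := add_comm _ _

theorem bd_ball (b : ℕ) (hb : ∀ s ∈ S, ∀ n, bd A s n ≤ b) (r n : ℕ) :
    ∀ g ∈ ball S r, bd A g n ≤ r * b := by
  induction r with
  | zero =>
    intro g hg
    rw [ball, pow_zero] at hg
    have : g = 1 := by simpa using hg
    rw [this, bd_one]
    omega
  | succ r ih =>
    intro g hg
    rw [ball, pow_succ'] at hg
    obtain ⟨x, hx, y, hy, rfl⟩ := mem_mul.mp hg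
    have h1 := ih y hy
    have h2 : bd A x n ≤ b := by
      rcases mem_insert.mp hx with rfl | hx
      · rw [bd_one]; omega
      · exact hb x hx n
    calc bd A (x * y) n ≤ bd A x n + bd A y n := bd_mul A x y n
      _ ≤ b + r * b := by omega
      _ = _ := by ring

theorem card_le_of_ball (b : ℕ) (hb : ∀ s ∈ S, ∀ n, bd A s n ≤ b) (r n : ℕ)
    (h : 2 * (A n).card ≤ (ball S r).card) : (A n).card ≤ 2 * (r * b) := by
  classical
  rcases (A n).eq_empty_or_nonempty with h0 | h0
  · rw [h0]; simp
  have h1 : ∃ g ∈ ball S r, 2 * ((A n).filter fun a => g * a ∈ A n).card ≤ (A n).card := by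
    by_contra hcon
    push Not at hcon
    have h2 : ∑ g ∈ ball S r, ((A n).filter fun a => g * a ∈ A n).card ≤
        (A n).card * (A n).card := by
      have e1 : ∀ g ∈ ball S r, ((A n).filter fun a => g * a ∈ A n).card =
          ∑ a ∈ A n, if g * a ∈ A n then 1 else 0 := fun g _ => by rw [card_filter]
      rw [sum_congr rfl e1, sum_comm, ← smul_eq_mul, ← sum_const]
      refine sum_le_sum fun a _ => ?_
      rw [← card_filter]
      have e2 : ((ball S r).filter fun g => g * a ∈ A n).card =
          (((ball S r).filter fun g => g * a ∈ A n).image fun g => g * a).card :=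
        (card_image_of_injective _ (mul_left_injective a)).symm
      rw [e2]
      refine card_le_card fun x hx => ?_
      obtain ⟨g, hg, rfl⟩ := mem_image.mp hx
      exact (mem_filter.mp hg).2
    have h3 : (ball S r).card * (A n).card <
        ∑ g ∈ ball S r, 2 * ((A n).filter fun a => g * a ∈ A n).card := by
      rw [← smul_eq_mul, ← sum_const]
      refine sum_lt_sum_of_nonempty ?_ hcon
      exact ⟨1, by
        have := prod_mem_ball S [] r (fun x hx => by simp at hx) (by simp)
        simpa using this⟩
    rw [← mul_sum] at h3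
    have h4 : 0 < (A n).card := card_pos.mpr h0
    have h5 := Nat.mul_le_mul_right (A n).card h
    nlinarith
  obtain ⟨g, hg, hle⟩ := h1
  have h2 := bd_ball S A b hb r n g hg
  have h3 : ((A n).filter fun a => g * a ∈ A n).card + bd A g n = (A n).card :=
    card_filter_add_card_filter_not _
  omega

/-- A word which agrees with its shift by p up to length m starts with a power. -/
theorem periodic {α : Type*} (u : List α) (m p : ℕ) (h : u.take m = (u.drop p).take m) :
    ∀ k, k * p ≤ m → u.take ((k + 1) * p) = (List.replicate (k + 1) (u.take p)).flatten := by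
  intro k
  induction k with
  | zero => intro _; simp
  | succ k ih =>
    intro hk
    have h1 : (k + 1 + 1) * p = p + (k + 1) * p := by ring
    have h2 : (u.drop p).take ((k + 1) * p) = u.take ((k + 1) * p) := by
      have e1 : (u.drop p).take ((k + 1) * p) = ((u.drop p).take m).take ((k + 1) * p) := by
        rw [List.take_take, min_eq_left hk]
      rw [e1, ← h, List.take_take, min_eq_left hk]
    have h3 : k * p ≤ m := le_trans (Nat.mul_le_mul_right p (Nat.le_succ k)) hk
    rw [h1, List.take_add, h2, ih h3, List.replicate_succ (n := k + 1), List.flatten_cons]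

variable [Infinite Γ]

theorem exists_long (hgen : ∀ g : Γ, ∃ l, Over S l ∧ l.prod = g) (hS : S.Nonempty) (m : ℕ) :
    ∃ l, Mini S l ∧ l.length = m := by
  by_contra hcon
  push Not at hcon
  have h1 : ∀ l, Mini S l → l.length < m := by
    intro l hl
    by_contra hc
    push Not at hc
    exact hcon (l.take m) (Mini.take S hS hl m) (by rw [List.length_take]; omega)
  have h2 : ∀ g : Γ, g ∈ ball S m := by
    intro g
    obtain ⟨l, hl, rfl⟩ := hgen g
    obtain ⟨l', hl', hp⟩ := exists_mini S l hl
    rw [← hp]
    exact prod_mem_ball S l' m hl'.1 (h1 l' hl').le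
  exact Set.infinite_univ ((ball S m).finite_toSet.subset fun g _ => h2 g)

theorem exists_card_gt (hmono : Monotone A) (hcov : ∀ g, ∃ n, g ∈ A n) (N : ℕ) :
    ∃ n, N < (A n).card := by
  classical
  obtain ⟨F, hF⟩ := Infinite.exists_subset_card_eq Γ (N + 1)
  have h1 : ∀ F' : Finset Γ, ∃ n, F' ⊆ A n := by
    intro F'
    induction F' using Finset.induction_on with
    | empty => exact ⟨0, by simp⟩
    | insert a F' _ ih =>
      obtain ⟨n, hn⟩ := ih
      obtain ⟨k, hk⟩ := hcov a
      refine ⟨max n k, insert_subset ?_ ?_⟩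
      · exact hmono (le_max_right _ _) hk
      · exact hn.trans (hmono (le_max_left _ _))
  obtain ⟨n, hn⟩ := h1 F
  exact ⟨n, by have := card_le_card hn; omega⟩

theorem exists_small_sph (hS : S.Nonempty) (hmono : Monotone A) (hcov : ∀ g, ∃ n, g ∈ A n)
    (b : ℕ) (hb0 : 1 ≤ b) (hb : ∀ s ∈ S, ∀ n, bd A s n ≤ b) (m0 : ℕ) :
    ∃ m, m0 ≤ m ∧ (sph S m).card ≤ 8 * b := by
  by_contra hcon
  push Not at hcon
  obtain ⟨n, hn⟩ := exists_card_gt A hmono hcov (2 * b * (2 * m0 + 2))
  set r := ((A n).card - 1) / (2 * b) with hr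
  have h1 : 2 * b * r ≤ (A n).card - 1 := Nat.mul_div_le _ _
  have h2 : (A n).card - 1 < 2 * b * (r + 1) := Nat.lt_mul_div_succ _ (by omega)
  have h3 : (ball S r).card < 2 * (A n).card := by
    by_contra hc
    push Not at hc
    have := card_le_of_ball S A b hb r n hc
    have e : 2 * (r * b) = 2 * b * r := by ring
    omega
  have h4 : 2 * m0 + 1 ≤ r := by
    rw [hr, Nat.le_div_iff_mul_le (by omega)]
    have e : (2 * m0 + 1) * (2 * b) ≤ 2 * b * (2 * m0 + 2) := by nlinarith
    omega
  have h5 := sum_sph S hS r
  have h6 : (r + 1 - m0) * (8 * b + 1) ≤ ∑ m ∈ range (r + 1), (sph S m).card := by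
    calc (r + 1 - m0) * (8 * b + 1) = ∑ m ∈ Ico m0 (r + 1), (8 * b + 1) := by
          rw [sum_const, Nat.card_Ico, smul_eq_mul]
      _ ≤ ∑ m ∈ Ico m0 (r + 1), (sph S m).card :=
          sum_le_sum fun m hm => hcon m (mem_Ico.mp hm).1
      _ ≤ _ := sum_le_sum_of_subset (fun m hm => by
          rw [mem_Ico] at hm
          rw [mem_range]
          omega)
  obtain ⟨d, hd⟩ : ∃ d, r + 1 = m0 + d := ⟨r + 1 - m0, by omega⟩
  have h7 : r + 1 - m0 = d := by omega
  rw [h7] at h6
  have h8 : m0 + 2 ≤ d := by omega
  have h9 : (A n).card ≤ 2 * b * (m0 + d) := by rw [← hd]; omega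
  have h10 : d * (8 * b + 1) < 2 * (2 * b * (m0 + d)) := by omega
  have h11 : m0 + d ≤ 2 * d := by omega
  have h12 : 2 * (2 * b * (m0 + d)) ≤ 2 * (2 * b * (2 * d)) := by gcongr
  nlinarith

/-- A word x over S of length at most c all of whose powers up to K are nontrivial. -/
theorem exists_power (hgen : ∀ g : Γ, ∃ l, Over S l ∧ l.prod = g) (hS : S.Nonempty)
    (c : ℕ) (hc : ∀ m0, ∃ m, m0 ≤ m ∧ (sph S m).card ≤ c) (K : ℕ) :
    ∃ q ∈ ball S c, ∀ k, 1 ≤ k → k ≤ K → q ^ k ≠ 1 := by
  classical
  obtain ⟨m, hm, hcard⟩ := hc (K * c + c + 1)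
  obtain ⟨w, hw, hlen⟩ := exists_long S hgen hS (m + c)
  have hmaps : ∀ i ∈ range (c + 1), ((w.drop i).take m).prod ∈ sph S m := by
    intro i hi
    rw [mem_range] at hi
    exact (mem_sph S).mpr ⟨_, Mini.take S hS (Mini.drop S hS hw i) m, by
      rw [List.length_take, List.length_drop]; omega, rfl⟩
  obtain ⟨i, hi, j, hj, hne, heq⟩ := exists_ne_map_eq_of_card_lt_of_maps_to
    (s := range (c + 1)) (t := sph S m) (by rw [card_range]; omega) hmaps
  wlog hij : i < j generalizing i j
  · exact this j hj i hi hne.symm heq.symm (by omega)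
  rw [mem_range] at hi hj
  obtain ⟨p, rfl⟩ : ∃ p, j = i + p := ⟨j - i, by omega⟩
  have hp : 1 ≤ p := by omega
  have heq' : (w.drop i).take m = ((w.drop i).drop p).take m := by
    rw [List.drop_drop]
    exact mini_unique S hS (Mini.take S hS (Mini.drop S hS hw _) m)
      (Mini.take S hS (Mini.drop S hS hw _) m) heq
  set u := w.drop i with hu
  have hMu : Mini S u := Mini.drop S hS hw i
  have hulen : m ≤ u.length := by rw [hu, List.length_drop]; omega
  refine ⟨(u.take p).prod, prod_mem_ball S _ _ (Mini.take S hS hMu p).1 (by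
    rw [List.length_take]; omega), ?_⟩
  intro k hk1 hk2
  obtain ⟨k, rfl⟩ : ∃ k', k = k' + 1 := ⟨k - 1, by omega⟩
  have h1 : (k + 1) * p ≤ m := by
    have e1 : (k + 1) * p ≤ K * c := Nat.mul_le_mul hk2 (by omega)
    omega
  have h2 := periodic u m p heq' k (le_trans (Nat.mul_le_mul_right p (Nat.le_succ k)) h1)
  have h3 : Mini S (u.take ((k + 1) * p)) := Mini.take S hS hMu _
  have h4 : u.take ((k + 1) * p) ≠ [] := by
    intro h0
    have := congrArg List.length h0
    rw [List.length_take, List.length_nil] at this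
    have e2 : 1 ≤ (k + 1) * p := Nat.one_le_iff_ne_zero.mpr (by positivity)
    omega
  have h5 := Mini.prod_ne_one S hS h3 h4
  rw [h2, List.prod_flatten, List.map_replicate, List.prod_replicate] at h5
  exact h5

theorem exists_infinite_order (hgen : ∀ g : Γ, ∃ l, Over S l ∧ l.prod = g) (hS : S.Nonempty)
    (c : ℕ) (hc : ∀ m0, ∃ m, m0 ≤ m ∧ (sph S m).card ≤ c) :
    ∃ q : Γ, ∀ k, 1 ≤ k → q ^ k ≠ 1 := by
  classical
  by_contra hcon
  push Not at hcon
  choose f hf1 hf2 using hcon
  obtain ⟨q, hq, hK⟩ := exists_power S hgen hS c hc ((ball S c).sup f)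
  exact hK (f q) (hf1 q) (le_sup (f := f) hq) (hf2 q)

end Growth

section Final

variable {Γ : Type*} [Group Γ] [DecidableEq Γ] (A : ℕ → Finset Γ)

theorem exists_cover (hmono : Monotone A) (hcov : ∀ g, ∃ n, g ∈ A n) (F : Finset Γ) :
    ∃ n, F ⊆ A n := by
  induction F using Finset.induction_on with
  | empty => exact ⟨0, by simp⟩
  | insert a F' _ ih =>
    obtain ⟨n, hn⟩ := ih
    obtain ⟨k, hk⟩ := hcov a
    refine ⟨max n k, insert_subset ?_ ?_⟩
    · exact hmono (le_max_right _ _) hk
    · exact hn.trans (hmono (le_max_left _ _))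

theorem finiteIndex_of_order (hmono : Monotone A) (hcov : ∀ g, ∃ n, g ∈ A n) (q : Γ)
    (hq : ∀ k, 1 ≤ k → q ^ k ≠ 1) (B : ℕ) (hB : ∀ n, bd A q n ≤ B) :
    (Subgroup.zpowers q).FiniteIndex := by
  classical
  rw [Subgroup.finiteIndex_iff]
  intro h0
  rw [Subgroup.index_eq_zero_iff_infinite] at h0
  have hpow : ∀ a b : ℕ, q ^ a = q ^ b → a = b := by
    have key : ∀ a b : ℕ, a < b → q ^ a ≠ q ^ b := by
      intro a b hab h
      apply hq (b - a) (by omega)
      have h1 : q ^ b = q ^ a * q ^ (b - a) := by rw [← pow_add]; congr 1; omega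
      rw [h1] at h
      exact (left_eq_mul.mp h)
    intro a b h
    rcases lt_trichotomy a b with h1 | h1 | h1
    · exact absurd h (key a b h1)
    · exact h1
    · exact absurd h.symm (key b a h1)
  let e := Infinite.natEmbedding (Γ ⧸ Subgroup.zpowers q)
  let g : ℕ → Γ := fun i => ((e i).out)⁻¹
  obtain ⟨n, hn⟩ := exists_cover A hmono hcov ((range (B + 1)).image g)
  have hfin : ∀ i, {t : ℕ | q ^ t * g i ∈ A n}.Finite := by
    intro i
    refine Set.Finite.of_injOn (f := fun t : ℕ => q ^ t * g i) (t := (A n : Set Γ)) ?_ ?_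
      (A n).finite_toSet
    · intro t ht
      exact ht
    · intro a _ b _ h
      exact hpow a b (mul_right_cancel h)
  have hex : ∀ i ∈ range (B + 1), ∃ t : ℕ, q ^ t * g i ∈ A n ∧ q ^ (t + 1) * g i ∉ A n := by
    intro i hi
    have h0' : (0 : ℕ) ∈ {t : ℕ | q ^ t * g i ∈ A n} := by
      change q ^ 0 * g i ∈ A n
      rw [pow_zero, one_mul]
      exact hn (mem_image_of_mem _ hi)
    obtain ⟨t, ht, hmax⟩ := (hfin i).exists_maximal ⟨0, h0'⟩
    refine ⟨t, ht, fun hc => ?_⟩
    have := hmax (show (t + 1) ∈ {t : ℕ | q ^ t * g i ∈ A n} from hc) (by omega)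
    omega
  choose! t ht1 ht2 using hex
  have hcard : (B + 1) ≤ bd A q n := by
    have h1 : ((range (B + 1)).image fun i => q ^ t i * g i).card = B + 1 := by
      rw [card_image_of_injOn, card_range]
      intro i hi j hj h
      simp only at h
      have h2 : (g i)⁻¹⁻¹ * (g j)⁻¹ ∈ Subgroup.zpowers q := by
        rw [inv_inv, Subgroup.mem_zpowers_iff]
        refine ⟨-(t i : ℤ) + t j, ?_⟩
        rw [zpow_add, zpow_neg, zpow_natCast, zpow_natCast]
        have h3 : g i = (q ^ t i)⁻¹ * (q ^ t j * g j) := by rw [← h]; group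
        rw [h3]
        group
      have h4 : (e i) = (e j) := by
        have h5 : (QuotientGroup.mk (e i).out : Γ ⧸ Subgroup.zpowers q) =
            QuotientGroup.mk (e j).out := by
          rw [QuotientGroup.eq]
          have e1 : (g i)⁻¹ = (e i).out := inv_inv _
          have e2 : (g j)⁻¹ = (e j).out := inv_inv _
          rw [e1, e2] at h2
          exact h2
        rwa [QuotientGroup.out_eq', QuotientGroup.out_eq'] at h5
      exact e.injective h4
    rw [← h1]
    refine card_le_card fun x hx => ?_
    obtain ⟨i, hi, rfl⟩ := mem_image.mp hx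
    refine mem_filter.mpr ⟨ht1 i hi, ?_⟩
    rw [← mul_assoc, ← pow_succ']
    exact ht2 i hi
  have := hB n
  omega

/-- THEOREM T: a finitely generated group exhausted by finite sets with bounded boundaries has a
cyclic subgroup of finite index. -/
theorem thmT [Group.FG Γ] (hmono : Monotone A) (hcov : ∀ g, ∃ n, g ∈ A n) (B : Γ → ℕ)
    (hB : ∀ g n, bd A g n ≤ B g) : ∃ z : Γ, (Subgroup.zpowers z).FiniteIndex := by
  classical
  rcases finite_or_infinite Γ with hfin | hinf
  · exact ⟨1, inferInstance⟩
  · obtain ⟨S0, hS0⟩ := Group.fg_def.mp (inferInstance : Group.FG Γ)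
    let S : Finset Γ := insert 1 (S0 ∪ S0.image fun x => x⁻¹)
    have hS : S.Nonempty := ⟨1, mem_insert_self _ _⟩
    have hgen : ∀ g : Γ, ∃ l, Over S l ∧ l.prod = g := by
      intro g
      have hg : g ∈ Subgroup.closure (S0 : Set Γ) := by rw [hS0]; exact Subgroup.mem_top g
      have hg' : g ∈ Submonoid.closure ((S0 : Set Γ) ∪ (S0 : Set Γ)⁻¹) := by
        rw [← Subgroup.closure_toSubmonoid]
        exact hg
      obtain ⟨l, hl, hp⟩ := Submonoid.exists_list_of_mem_closure hg'
      refine ⟨l, fun x hx => ?_, hp⟩
      rcases hl x hx with h | h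
      · exact mem_insert_of_mem (mem_union_left _ h)
      · exact mem_insert_of_mem (mem_union_right _ (mem_image.mpr ⟨x⁻¹, h, inv_inv x⟩))
    have hb : ∀ s ∈ S, ∀ n, bd A s n ≤ max (S.sup B) 1 := by
      intro s hs n
      exact (hB s n).trans ((le_sup (f := B) hs).trans (le_max_left _ _))
    have hc := fun m0 => exists_small_sph S A hS hmono hcov _ (le_max_right _ _) hb m0
    obtain ⟨q, hq⟩ := exists_infinite_order S hgen hS _ hc
    exact ⟨q, finiteIndex_of_order A hmono hcov q hq (B q) (hB q)⟩

end Final

end Pool.Agent.NG.Gro
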