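import Pool.Agent.Helper12_NGR.Stmts
import Pool.Agent.Helper41_NG.Fol

/-!
Module NOE of squad NGR: a noetherian integral group ring gives the Foelner condition.
-/

set_option autoImplicit false

universe u

namespace Pool.Agent.NG

open scoped Pointwise

theorem foelner_of_folner {G : Type u} [Group G] [DecidableEq G] (h : Folner G) :
    NGR.Foelner G := by
  intro S hS n
  rcases Nat.eq_zero_or_pos n with rfl | hn
  · exact ⟨{1}, Set.finite_singleton _, Set.singleton_nonempty _, by simp⟩
  · have hn' : (0 : ℝ) < n := by exact_mod_cast hn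
    obtain ⟨F, hF, hle⟩ := h (insert 1 hS.toFinset) (Finset.mem_insert_self _ _) (1 / n)
      (by positivity)
    refine ⟨(F : Set G), F.finite_toSet, by exact_mod_cast hF, ?_⟩
    have h1 : ((F : Set G) * S ∪ F) = ((F * insert 1 hS.toFinset : Finset G) : Set G) := by
      rw [Finset.coe_mul, Finset.coe_insert, Set.Finite.coe_toFinset]
      ext x
      simp only [Set.mem_union, Set.mem_mul, Set.mem_insert_iff]
      constructor
      · rintro (⟨a, ha, b, hb, rfl⟩ | hx)
        · exact ⟨a, ha, b, Or.inr hb, rfl⟩
        · exact ⟨x, hx, 1, Or.inl rfl, mul_one x⟩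
      · rintro ⟨a, ha, b, rfl | hb, rfl⟩
        · right
          rwa [mul_one]
        · exact Or.inl ⟨a, ha, b, hb, rfl⟩
    rw [h1, Set.ncard_coe_finset, Set.ncard_coe_finset]
    have h2 : (n : ℝ) * ((F * insert 1 hS.toFinset : Finset G).card : ℝ) ≤
        ((n : ℝ) + 1) * F.card := by
      calc (n : ℝ) * ((F * insert 1 hS.toFinset : Finset G).card : ℝ)
          ≤ n * ((1 + 1 / n) * F.card) := by gcongr
        _ = _ := by field_simp
    exact_mod_cast h2

/-- Module NOE. -/
theorem noe : NGR.NoeStmt.{u} := by
  intro G _ h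
  classical
  exact foelner_of_folner (folner_of_noetherian h)

end Pool.Agent.NG
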