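import Mathlib

/-!
Bounded finite-state automorphisms of regular rooted trees: definitions and basic facts.
The vertices of the tree are the finite words List X, X a finite alphabet.
-/

set_option autoImplicit false
set_option linter.unusedSectionVars false

namespace Pool.Agent.NG.Tree

variable {X : Type*}

theorem apply_inv {α : Type*} (g : Equiv.Perm α) (x : α) : g (g⁻¹ x) = x :=
  Equiv.apply_symm_apply g x

theorem inv_apply {α : Type*} (g : Equiv.Perm α) (x : α) : g⁻¹ (g x) = x :=
  Equiv.symm_apply_apply g x

/-- A permutation of the set of finite words which preserves the length and the initial segments: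
an automorphism of the rooted tree of words. -/
structure IsTreeAut (g : Equiv.Perm (List X)) : Prop where
  len : ∀ l, (g l).length = l.length
  tak : ∀ l n, g (l.take n) = (g l).take n

/-- The section (state) of g at the vertex v: g (v w) = g (v) (section w). -/
def sec (g : Equiv.Perm (List X)) (v w : List X) : List X := (g (v ++ w)).drop v.length

/-- The section of g at v is nontrivial. -/
def Act (g : Equiv.Perm (List X)) (v : List X) : Prop := ∃ w, g (v ++ w) ≠ g v ++ w

/-- Bounded: the number of vertices of level n with nontrivial section is bounded. -/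
def Bounded (g : Equiv.Perm (List X)) : Prop :=
  ∃ C : ℕ, ∀ n : ℕ, {v : List X | v.length = n ∧ Act g v}.ncard ≤ C

/-- Finite-state: there are only finitely many sections. -/
def FiniteState (g : Equiv.Perm (List X)) : Prop := (Set.range (sec g)).Finite

/-- The section of g at p is finitary of depth at most D. -/
def DepthLe (g : Equiv.Perm (List X)) (p : List X) (D : ℕ) : Prop :=
  ∀ y : List X, y.length = D → ¬ Act g (p ++ y)

/-- The depths of the finitary sections of g are bounded. -/
def UniformDepth (g : Equiv.Perm (List X)) : Prop :=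
  ∃ D : ℕ, ∀ p : List X, (∃ D', DepthLe g p D') → DepthLe g p D

theorem IsTreeAut.app {g : Equiv.Perm (List X)} (hg : IsTreeAut g) (v w : List X) :
    g (v ++ w) = g v ++ sec g v w := by
  have h1 : g v = (g (v ++ w)).take v.length := by
    rw [← hg.tak, List.take_left]
  rw [h1, sec, List.take_append_drop]

theorem not_act_iff {g : Equiv.Perm (List X)} {v : List X} :
    ¬ Act g v ↔ ∀ w, g (v ++ w) = g v ++ w := by
  simp [Act]

theorem not_act_iff_sec {g : Equiv.Perm (List X)} (hg : IsTreeAut g) (p y : List X) :
    ¬ Act g (p ++ y) ↔ ∀ w, sec g p (y ++ w) = sec g p y ++ w := by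
  rw [not_act_iff]
  refine forall_congr' fun w => ?_
  rw [List.append_assoc, hg.app, hg.app, List.append_assoc, List.append_cancel_left_eq]

theorem not_act_append {g : Equiv.Perm (List X)} {v : List X} (h : ¬ Act g v) (u : List X) :
    ¬ Act g (v ++ u) := by
  rw [not_act_iff] at *
  intro w
  rw [List.append_assoc, h, h, List.append_assoc]

theorem not_act_mul {g h : Equiv.Perm (List X)} {v : List X} (h1 : ¬ Act h v)
    (h2 : ¬ Act g (h v)) : ¬ Act (g * h) v := by
  rw [not_act_iff] at *
  intro w
  rw [Equiv.Perm.mul_apply, Equiv.Perm.mul_apply, h1, h2]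

theorem not_act_inv {g : Equiv.Perm (List X)} {v : List X} (h1 : ¬ Act g (g⁻¹ v)) :
    ¬ Act g⁻¹ v := by
  rw [not_act_iff] at *
  intro w
  rw [Equiv.Perm.inv_eq_iff_eq, h1, apply_inv]

theorem not_act_one (v : List X) : ¬ Act (1 : Equiv.Perm (List X)) v := by
  rw [not_act_iff]
  intro w
  rfl

theorem levels_finite [Finite X] (n : ℕ) : {v : List X | v.length = n}.Finite :=
  List.finite_length_eq X n

theorem act_finite [Finite X] (g : Equiv.Perm (List X)) (n : ℕ) :
    {v : List X | v.length = n ∧ Act g v}.Finite :=
  (levels_finite n).subset fun _ h => h.1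

theorem DepthLe.mono {g : Equiv.Perm (List X)} {p : List X} {D D' : ℕ} (h : DepthLe g p D)
    (hD : D ≤ D') : DepthLe g p D' := by
  intro y hy
  have h1 := not_act_append (h (y.take D) (by rw [List.length_take]; omega)) (y.drop D)
  rwa [List.append_assoc, List.take_append_drop] at h1

/-- Finite-state automorphisms have uniformly bounded depths of finitary sections. -/
theorem uniformDepth_of_finiteState {g : Equiv.Perm (List X)} (hg : IsTreeAut g)
    (hs : FiniteState g) : UniformDepth g := by
  classical
  let P : (List X → List X) → ℕ → Prop := fun sg D =>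
    ∀ y : List X, y.length = D → ∀ w, sg (y ++ w) = sg y ++ w
  have hP : ∀ p D, DepthLe g p D ↔ P (sec g p) D := by
    intro p D
    refine forall_congr' fun y => forall_congr' fun _ => not_act_iff_sec hg p y
  let f : (List X → List X) → ℕ := fun sg => if h : ∃ D, P sg D then Classical.choose h else 0
  obtain ⟨D0, hD0⟩ := (hs.image f).bddAbove
  refine ⟨D0, fun p hp => ?_⟩
  have h1 : ∃ D, P (sec g p) D := by
    obtain ⟨D', hD'⟩ := hp
    exact ⟨D', (hP p D').mp hD'⟩
  have h2 : P (sec g p) (f (sec g p)) := by
    have : f (sec g p) = Classical.choose h1 := dif_pos h1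
    rw [this]
    exact Classical.choose_spec h1
  exact ((hP p _).mpr h2).mono (hD0 ⟨_, ⟨p, rfl⟩, rfl⟩)

section Group

variable {G : Type*} [Group G] (φ : G →* Equiv.Perm (List X))

/-- The pointwise fixer of the subtree at v. -/
def Fx (v : List X) : Subgroup G where
  carrier := {g | ∀ w, φ g (v ++ w) = v ++ w}
  mul_mem' := by
    intro a b ha hb w
    rw [map_mul, Equiv.Perm.mul_apply, hb, ha]
  one_mem' := by
    intro w
    simp
  inv_mem' := by
    intro a ha w
    rw [map_inv, Equiv.Perm.inv_eq_iff_eq, ha]

theorem mem_Fx {v : List X} {g : G} : g ∈ Fx φ v ↔ ∀ w, φ g (v ++ w) = v ++ w := Iff.rfl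

theorem mem_Fx_iff {v : List X} {g : G} : g ∈ Fx φ v ↔ φ g v = v ∧ ¬ Act (φ g) v := by
  rw [not_act_iff]
  constructor
  · intro h
    have h1 : φ g v = v := by simpa using h []
    exact ⟨h1, fun w => by rw [h w, h1]⟩
  · rintro ⟨h1, h2⟩ w
    rw [h2, h1]

theorem Fx_le (v u : List X) : Fx φ v ≤ Fx φ (v ++ u) := by
  intro g hg w
  rw [List.append_assoc]
  exact hg (u ++ w)

variable (hφ : ∀ g, IsTreeAut (φ g))

include hφ

theorem Fx_conj {v : List X} {h : G} (hh : h ∈ Fx φ v) (g : G) :
    g * h * g⁻¹ ∈ Fx φ (φ g v) := by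
  intro w
  have h1 : φ g⁻¹ (φ g v ++ w) = v ++ sec (φ g⁻¹) (φ g v) w := by
    rw [(hφ g⁻¹).app, map_inv, inv_apply]
  rw [map_mul, map_mul, Equiv.Perm.mul_apply, Equiv.Perm.mul_apply, h1, hh, ← h1, map_inv,
    apply_inv]

theorem Fx_map (v : List X) (g : G) (h : G) : h ∈ Fx φ (φ g v) ↔ g⁻¹ * h * g ∈ Fx φ v := by
  constructor
  · intro hh
    have := Fx_conj φ hφ hh g⁻¹
    rwa [map_inv, inv_apply, inv_inv] at this
  · intro hh
    have := Fx_conj φ hφ hh g
    have e : g * (g⁻¹ * h * g) * g⁻¹ = h := by group
    rwa [e] at this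

omit hφ in
/-- The stabilizer of the vertex v. -/
def St (v : List X) : Subgroup G where
  carrier := {g | φ g v = v}
  mul_mem' := by
    intro a b ha hb
    change φ (a * b) v = v
    rw [map_mul, Equiv.Perm.mul_apply, hb, ha]
  one_mem' := by
    change φ 1 v = v
    simp
  inv_mem' := by
    intro a ha
    change φ a⁻¹ v = v
    rw [map_inv, Equiv.Perm.inv_eq_iff_eq]
    exact ha.symm

omit hφ in
theorem mem_St {v : List X} {g : G} : g ∈ St φ v ↔ φ g v = v := Iff.rfl

theorem St_append {v u : List X} {g : G} (h : g ∈ St φ (v ++ u)) : g ∈ St φ v := by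
  rw [mem_St] at *
  have h1 := (hφ g).tak (v ++ u) v.length
  rw [List.take_left] at h1
  rw [h1, h, List.take_left]

theorem St_finiteIndex [Finite X] (v : List X) : (St φ v).FiniteIndex := by
  rw [Subgroup.finiteIndex_iff_finite_quotient]
  have hf : Finite {l : List X // l.length = v.length} := (levels_finite v.length).to_subtype
  let f : G ⧸ St φ v → {l : List X // l.length = v.length} := Quotient.lift
    (fun g => ⟨φ g v, (hφ g).len v⟩) (by
      intro a b hab
      have h1 : a⁻¹ * b ∈ St φ v := QuotientGroup.leftRel_apply.mp hab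
      rw [mem_St, map_mul, Equiv.Perm.mul_apply, map_inv, Equiv.Perm.inv_eq_iff_eq] at h1
      exact Subtype.ext h1.symm)
  refine Finite.of_injective f ?_
  intro a b
  induction a using QuotientGroup.induction_on with
  | H a =>
    induction b using QuotientGroup.induction_on with
    | H b =>
      intro hab
      rw [QuotientGroup.eq]
      have h1 : φ a v = φ b v := congrArg Subtype.val hab
      rw [mem_St, map_mul, Equiv.Perm.mul_apply, map_inv, Equiv.Perm.inv_eq_iff_eq]
      exact h1.symm

/-- The claim at v: a subgroup of finite index whose commutators fix the subtree at v. -/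
def Good (φ : G →* Equiv.Perm (List X)) (v : List X) : Prop :=
  ∃ L : Subgroup G, L.FiniteIndex ∧ ∀ a ∈ L, ∀ b ∈ L, a * b * a⁻¹ * b⁻¹ ∈ Fx φ v

/-- The finite case: if the claim holds for all vertices N levels below v, it holds at v. -/
theorem good_of_level [Finite X] [Nonempty X] (v : List X) (N : ℕ)
    (h : ∀ w : List X, w.length = N → Good φ (v ++ w)) : Good φ v := by
  classical
  choose! L hL1 hL2 using h
  have hf : Finite {l : List X // l.length = N} := (levels_finite N).to_subtype
  refine ⟨⨅ w : {l : List X // l.length = N}, L w.1,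
    Subgroup.finiteIndex_iInf fun w => hL1 w.1 w.2, ?_⟩
  intro a ha b hb
  rw [Subgroup.mem_iInf] at ha hb
  have h1 : ∀ w : List X, w.length = N → a * b * a⁻¹ * b⁻¹ ∈ Fx φ (v ++ w) := fun w hw =>
    hL2 w hw a (ha ⟨w, hw⟩) b (hb ⟨w, hw⟩)
  set c := a * b * a⁻¹ * b⁻¹ with hc
  intro u
  rcases le_or_gt N u.length with hu | hu
  · have h2 := h1 (u.take N) (by rw [List.length_take]; omega) (u.drop N)
    rw [List.append_assoc, List.take_append_drop] at h2
    exact h2
  · obtain ⟨x⟩ := ‹Nonempty X›
    have h2 := h1 (u ++ List.replicate (N - u.length) x) (by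
      rw [List.length_append, List.length_replicate]; omega) []
    rw [List.append_nil] at h2
    have h3 := (hφ c).tak (v ++ (u ++ List.replicate (N - u.length) x)) (v ++ u).length
    rw [h2, ← List.append_assoc, List.take_left] at h3
    exact h3

end Group

end Pool.Agent.NG.Tree
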