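import Pool.Agent.Helper41_NG.Gro
import Pool.Agent.Helper41_NG.Tre

/-!
Regular rays: if the fixer is constant along a ray whose orbit meets no singular point, then the
quotient of the stabilizer by the fixer has a cyclic subgroup of finite index.
-/

set_option autoImplicit false
set_option linter.unusedSectionVars false

namespace Pool.Agent.NG.Tree

open Finset

variable {X : Type*} [Finite X] {G : Type*} [Group G] (φ : G →* Equiv.Perm (List X))
  (hφ : ∀ g, IsTreeAut (φ g))

include hφ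

theorem Fx_le_St (v : List X) : Fx φ v ≤ St φ v := by
  intro g hg
  exact (mem_Fx_iff φ).mp hg |>.1

theorem normal_sub (v : List X) : ((Fx φ v).subgroupOf (St φ v)).Normal := by
  refine ⟨fun n hn g => ?_⟩
  rw [Subgroup.mem_subgroupOf] at hn ⊢
  have h1 := Fx_conj φ hφ hn (g : G)
  rw [(mem_St φ).mp g.2] at h1
  exact h1

theorem good_of_ray (hfg : ∀ H : Subgroup G, H.FG) (hb : ∀ g, Bounded (φ g)) (v : List X)
    (w : ℕ → List X) (hw : ∀ k, ∃ u, w (k + 1) = w k ++ u)
    (hF : ∀ k, Fx φ (v ++ w k) = Fx φ v) (hreg : ∀ g : G, ∃ k, ¬ Act (φ g) (v ++ w k)) :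
    Good φ v := by
  classical
  set K := St φ v with hK
  set N := (Fx φ v).subgroupOf K with hN
  have hnorm : N.Normal := normal_sub φ hφ v
  have hmemN : ∀ y : K, y ∈ N ↔ (y : G) ∈ Fx φ v := fun y => Subgroup.mem_subgroupOf
  let rep : K ⧸ N → G := fun γ => (γ.out : K)
  have hrepK : ∀ γ, rep γ ∈ K := fun γ => (γ.out : K).2
  have hmk : ∀ γ : K ⧸ N, (QuotientGroup.mk (⟨rep γ, hrepK γ⟩ : K) : K ⧸ N) = γ := fun γ =>
    QuotientGroup.out_eq' γ
  have hagree : ∀ (g : K) (x : List X),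
      φ g (v ++ x) = φ (rep (QuotientGroup.mk g : K ⧸ N)) (v ++ x) := by
    intro g x
    have h1 : (⟨rep (QuotientGroup.mk g : K ⧸ N), hrepK _⟩ : K)⁻¹ * g ∈ N := by
      rw [← QuotientGroup.eq]
      exact hmk _
    have h2 := (hmemN _).mp h1 x
    simp only [Subgroup.coe_mul, Subgroup.coe_inv, map_mul, map_inv, Equiv.Perm.mul_apply] at h2
    rw [Equiv.Perm.inv_eq_iff_eq] at h2
    exact h2
  have hactrep : ∀ (g : K) (x : List X),
      Act (φ g) (v ++ x) ↔ Act (φ (rep (QuotientGroup.mk g : K ⧸ N))) (v ++ x) := by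
    intro g x
    unfold Act
    refine exists_congr fun y => ?_
    rw [List.append_assoc, hagree g, hagree g x]
  let A' : ℕ → Set (K ⧸ N) := fun k => {γ | ¬ Act (φ (rep γ)) (v ++ w k)}
  have hinj : ∀ k, Set.InjOn (fun γ => φ (rep γ) (v ++ w k)) (A' k) := by
    intro k γ hγ γ' hγ' heq
    simp only at heq
    have h1 := not_act_iff.mp hγ
    have h2 := not_act_iff.mp hγ'
    rw [← hmk γ, ← hmk γ', QuotientGroup.eq, hmemN]
    change (rep γ)⁻¹ * rep γ' ∈ Fx φ v
    rw [← hF k]
    intro x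
    rw [map_mul, map_inv, Equiv.Perm.mul_apply, Equiv.Perm.inv_eq_iff_eq, h1, h2, heq]
  have hfinA : ∀ k, (A' k).Finite := by
    intro k
    refine Set.Finite.of_injOn (f := fun γ => φ (rep γ) (v ++ w k))
      (t := {l : List X | l.length = (v ++ w k).length}) ?_ (hinj k) (levels_finite _)
    intro γ _
    exact (hφ _).len _
  let A : ℕ → Finset (K ⧸ N) := fun k => (hfinA k).toFinset
  have hmemA : ∀ k γ, γ ∈ A k ↔ ¬ Act (φ (rep γ)) (v ++ w k) := by
    intro k γ
    exact (hfinA k).mem_toFinset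
  have hmono : Monotone A := by
    refine monotone_nat_of_le_succ fun k γ hγ => ?_
    rw [hmemA] at hγ ⊢
    obtain ⟨u, hu⟩ := hw k
    rw [hu, ← List.append_assoc]
    exact not_act_append hγ u
  have hcov : ∀ γ, ∃ k, γ ∈ A k := by
    intro γ
    obtain ⟨k, hk⟩ := hreg (rep γ)
    exact ⟨k, (hmemA k γ).mpr hk⟩
  choose C hC using fun γ : K ⧸ N => hb (rep γ)
  have hbd : ∀ γ k, Gro.bd A γ k ≤ C γ := by
    intro γ k
    refine le_trans ?_ (hC γ (v ++ w k).length)
    rw [Set.ncard_eq_toFinset_card _ (act_finite _ _), Gro.bd]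
    refine card_le_card_of_injOn (fun a => φ (rep a) (v ++ w k)) ?_ ?_
    · intro a ha
      have ha' := mem_filter.mp (mem_coe.mp ha)
      rw [hmemA] at ha'
      have h2 := ha'.2
      rw [hmemA, not_not] at h2
      rw [mem_coe, Set.Finite.mem_toFinset]
      refine ⟨(hφ _).len _, ?_⟩
      by_contra hc
      have h3 : ¬ Act (φ (rep γ * rep a)) (v ++ w k) := by
        rw [map_mul]
        exact not_act_mul ha'.1 hc
      apply h3
      have h4 := (hactrep (⟨rep γ, hrepK γ⟩ * ⟨rep a, hrepK a⟩) (w k)).mpr (by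
        rw [QuotientGroup.mk_mul, hmk, hmk]
        exact h2)
      exact h4
    · intro a ha a' ha' h
      have h1 := (mem_filter.mp (mem_coe.mp ha)).1
      have h2 := (mem_filter.mp (mem_coe.mp ha')).1
      rw [hmemA] at h1 h2
      exact hinj k h1 h2 h
  have hKfg : Group.FG K := (Group.fg_iff_subgroup_fg K).mpr (hfg K)
  have : Group.FG (K ⧸ N) := inferInstance
  obtain ⟨z, hz⟩ := Gro.thmT A hmono hcov C hbd
  let L0 : Subgroup K := (Subgroup.zpowers z).comap (QuotientGroup.mk' N)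
  refine ⟨L0.map K.subtype, ?_, ?_⟩
  · rw [Subgroup.finiteIndex_iff, Subgroup.index_map_subtype]
    refine Nat.mul_ne_zero ?_ ?_
    · rw [Subgroup.index_comap_of_surjective _ (QuotientGroup.mk'_surjective N)]
      exact hz.index_ne_zero
    · exact (St_finiteIndex φ hφ v).index_ne_zero
  · rintro _ ⟨a, ha, rfl⟩ _ ⟨b, hb', rfl⟩
    have h1 : (QuotientGroup.mk' N a) ∈ Subgroup.zpowers z := ha
    have h2 : (QuotientGroup.mk' N b) ∈ Subgroup.zpowers z := hb'
    obtain ⟨i, hi⟩ := Subgroup.mem_zpowers_iff.mp h1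
    obtain ⟨j, hj⟩ := Subgroup.mem_zpowers_iff.mp h2
    have h3 : QuotientGroup.mk' N (a * b * a⁻¹ * b⁻¹) = 1 := by
      rw [map_mul, map_mul, map_mul, map_inv, map_inv, ← hi, ← hj, ← zpow_add, ← zpow_neg,
        ← zpow_add, ← zpow_neg, ← zpow_add]
      have : i + j + -i + -j = 0 := by ring
      rw [this, zpow_zero]
    rw [QuotientGroup.mk'_apply, QuotientGroup.eq_one_iff, hmemN] at h3
    exact h3

end Pool.Agent.NG.Tree
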