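import Pool.Agent.Helper41_NG.TrA

/-!
Isolated rays: the case of uniformly bounded depth of finitary sections.
-/

set_option autoImplicit false
set_option linter.unusedSectionVars false

namespace Pool.Agent.NG.Tree

variable {X : Type*} [Finite X]

/-- One automorphism along a ray p n. -/
theorem off_one (g : Equiv.Perm (List X)) (hg : IsTreeAut g) (hb : Bounded g)
    (hs : UniformDepth g) (p : ℕ → List X) (x : ℕ → X) (hp : ∀ n, p (n + 1) = p n ++ [x n])
    : ∃ N D : ℕ, ∀ n, N ≤ n → ∀ a, a ≠ x n → ∀ y : List X, D ≤ y.length →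
      ¬ Act g (p n ++ a :: y) := by
  classical
  have hlen : ∀ n, (p n).length = (p 0).length + n := by
    intro n
    induction n with
    | zero => rfl
    | succ n ih => rw [hp, List.length_append, ih]; simp; omega
  have hpre : ∀ n k, ∃ e, p (n + 1 + k) = p n ++ x n :: e := by
    intro n k
    induction k with
    | zero => exact ⟨[], by simpa using hp n⟩
    | succ k ih =>
      obtain ⟨e, he⟩ := ih
      exact ⟨e ++ [x (n + 1 + k)], by
        rw [show n + 1 + (k + 1) = n + 1 + k + 1 by ring, hp, he]; simp⟩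
  obtain ⟨C, hC⟩ := hb
  let Bad : Set ℕ := {n | ∀ D : ℕ, ∃ a, a ≠ x n ∧ ∃ y : List X, y.length = D ∧
    Act g (p n ++ a :: y)}
  have hBad : Bad.Finite := by
    by_contra hinf
    obtain ⟨s, hs1, hs2⟩ := (show Bad.Infinite from hinf).exists_subset_card_eq (C + 1)
    have hsel : ∀ n ∈ s, ∃ t : List X, (∃ a, a ≠ x n ∧ ∃ y, t = p n ++ a :: y) ∧
        t.length = (p 0).length + s.sup id + 1 ∧ Act g t := by
      intro n hn
      have hle : n ≤ s.sup id := Finset.le_sup (f := id) hn
      obtain ⟨a, ha, y, hy, hact⟩ := hs1 hn (s.sup id - n)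
      refine ⟨_, ⟨a, ha, y, rfl⟩, ?_, hact⟩
      rw [List.length_append, hlen, List.length_cons, hy]
      omega
    choose! t ht1 ht2 ht3 using hsel
    have hinj : Set.InjOn t (s : Set ℕ) := by
      have key : ∀ n ∈ s, ∀ m ∈ s, n < m → t n ≠ t m := by
        intro n hn m hm hnm heq
        obtain ⟨a, ha, y, hy⟩ := ht1 n hn
        obtain ⟨a', _, y', hy'⟩ := ht1 m hm
        obtain ⟨e, he⟩ := hpre n (m - (n + 1))
        have e1 : n + 1 + (m - (n + 1)) = m := by omega
        rw [e1] at he
        rw [hy, hy', he, List.append_assoc, List.append_cancel_left_eq, List.cons_append,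
          List.cons.injEq] at heq
        exact ha heq.1
      intro n hn m hm h
      rcases lt_trichotomy n m with h1 | h1 | h1
      · exact absurd h (key n hn m hm h1)
      · exact h1
      · exact absurd h.symm (key m hm n hn h1)
    have h1 := hC ((p 0).length + s.sup id + 1)
    rw [Set.ncard_eq_toFinset_card _ (act_finite _ _)] at h1
    have h2 : s.card ≤ (act_finite g ((p 0).length + s.sup id + 1)).toFinset.card := by
      refine Finset.card_le_card_of_injOn t ?_ hinj
      intro n hn
      rw [Finset.mem_coe, Set.Finite.mem_toFinset]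
      exact ⟨ht2 n hn, ht3 n hn⟩
    omega
  obtain ⟨N, hN⟩ : ∃ N, ∀ n, N ≤ n → n ∉ Bad := by
    obtain ⟨N, hN⟩ := hBad.bddAbove
    exact ⟨N + 1, fun n hn hc => by have := hN hc; omega⟩
  obtain ⟨D, hD⟩ := hs
  refine ⟨N, D, fun n hn a ha y hy => ?_⟩
  have h1 := hN n hn
  simp only [Bad, Set.mem_ofPred_eq, not_forall, not_exists, not_and] at h1
  obtain ⟨D', hD'⟩ := h1
  have h2 : DepthLe g (p n ++ [a]) D' := by
    intro z hz
    have := hD' a ha z hz
    simpa using this
  have h3 := hD (p n ++ [a]) ⟨D', h2⟩
  have h4 := (h3.mono hy) y rfl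
  simpa using h4

variable {G : Type*} [Group G]

/-- A finitely generated group has finitely many homomorphisms to a finite group. -/
theorem finite_hom {K : Type*} [Group K] [Group.FG K] {P : Type*} [Group P] [Finite P] :
    Finite (K →* P) := by
  obtain ⟨S, hS⟩ := Group.fg_def.mp (inferInstance : Group.FG K)
  refine Finite.of_injective (fun f : K →* P => fun s : S => f s) ?_
  intro f g h
  refine MonoidHom.eq_of_eqOn_dense hS fun s hs => ?_
  exact congrFun h ⟨s, hs⟩

variable (φ : G →* Equiv.Perm (List X)) (hφ : ∀ g, IsTreeAut (φ g))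

/-- The action of the pointwise stabilizer of the ray on words below p. -/
@[reducible] def belowAct (K : Subgroup G) (p : List X) (hK : ∀ g ∈ K, φ g p = p)
    (hφ : ∀ g, IsTreeAut (φ g)) (d : ℕ) : MulAction K {y : List X // y.length = d} where
  smul g y := ⟨sec (φ g) p y.1, by
    have h1 := (hφ g).len (p ++ y.1)
    rw [(hφ g).app, hK g g.2, List.length_append, List.length_append] at h1
    have h2 := y.2
    omega⟩
  one_smul y := by
    apply Subtype.ext
    change sec (φ (1 : K)) p y.1 = y.1
    simp [sec]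
  mul_smul a b y := by
    apply Subtype.ext
    change sec (φ ((a * b : K) : G)) p y.1 = sec (φ a) p (sec (φ b) p y.1)
    have h1 : φ ((a * b : K) : G) (p ++ y.1) = p ++ sec (φ a) p (sec (φ b) p y.1) := by
      rw [Subgroup.coe_mul, map_mul, Equiv.Perm.mul_apply, (hφ b).app, hK b b.2, (hφ a).app,
        hK a a.2]
    have h2 := (hφ ((a * b : K) : G)).app p y.1
    rw [hK _ (a * b).2, h1] at h2
    exact (List.append_cancel_left h2).symm

include hφ

theorem off_map (K : Subgroup G) (p : ℕ → List X) (x : ℕ → X)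
    (hp : ∀ n, p (n + 1) = p n ++ [x n]) (hK : ∀ g ∈ K, ∀ n, φ g (p n) = p n)
    (h : G) (hh : h ∈ K) (n : ℕ) (a : X) (ha : a ≠ x n) (y : List X) :
    ∃ a' y', a' ≠ x n ∧ y'.length = y.length ∧ φ h (p n ++ a :: y) = p n ++ a' :: y' := by
  have h1 := (hφ h).app (p n) (a :: y)
  rw [hK h hh n] at h1
  have hl := (hφ h).len (p n ++ a :: y)
  rw [h1, List.length_append, List.length_append, List.length_cons] at hl
  obtain ⟨a', y', hay⟩ : ∃ a' y', sec (φ h) (p n) (a :: y) = a' :: y' := by
    cases hc : sec (φ h) (p n) (a :: y) with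
    | nil => rw [hc] at hl; simp at hl
    | cons a' y' => exact ⟨a', y', rfl⟩
  rw [hay] at h1 hl
  refine ⟨a', y', ?_, by rw [List.length_cons] at hl; omega, h1⟩
  intro hax
  apply ha
  rw [hax] at h1
  have h2 : φ h (p n ++ [a]) = p n ++ [x n] := by
    have e : ∀ (b : X) (z : List X), (p n ++ b :: z).take ((p n).length + 1) = p n ++ [b] := by
      intro b z
      have e1 : p n ++ b :: z = (p n ++ [b]) ++ z := by simp
      have e2 : (p n).length + 1 = (p n ++ [b]).length := by simp
      rw [e1, e2, List.take_left]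
    have h3 := (hφ h).tak (p n ++ a :: y) ((p n).length + 1)
    rw [h1, e, e] at h3
    exact h3
  have h4 : φ h (p n ++ [x n]) = p n ++ [x n] := by
    rw [← hp, hK h hh]
  have h5 := (φ h).injective (h2.trans h4.symm)
  simpa using h5

theorem good_of_isolated (hfg : ∀ H : Subgroup G, H.FG) (hb : ∀ g, Bounded (φ g))
    (hs : ∀ g, UniformDepth (φ g)) (v u : List X) (p : ℕ → List X) (x : ℕ → X)
    (hp : ∀ n, p (n + 1) = p n ++ [x n]) (hK : ∀ g ∈ St φ u, ∀ n, φ g (p n) = p n)
    (hF : ∀ n, Fx φ (p n) = Fx φ v) : Good φ v := by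
  classical
  set K := St φ u with hKdef
  obtain ⟨S, hS⟩ := hfg K
  have hSK : ∀ s ∈ S, s ∈ K := by
    intro s hs'
    rw [← hS]
    exact Subgroup.subset_closure hs'
  choose N D hND using fun g : G => off_one (φ g) (hφ g) (hb g) (hs g) p x hp
  set N1 := S.sup N with hN1
  set D1 := S.sup D with hD1
  have hall : ∀ g ∈ K, ∀ n, N1 ≤ n → ∀ a, a ≠ x n → ∀ y : List X, D1 ≤ y.length →
      ¬ Act (φ g) (p n ++ a :: y) := by
    intro g hg
    have hg' : g ∈ Subgroup.closure (S : Set G) := by rw [hS]; exact hg
    induction hg' using Subgroup.closure_induction with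
    | mem s hs' =>
      intro n hn a ha y hy
      refine hND s n (le_trans (Finset.le_sup (f := N) hs') hn) a ha y
        (le_trans (Finset.le_sup (f := D) hs') hy)
    | one =>
      intro n _ a _ y _
      rw [map_one]
      exact not_act_one _
    | mul g h hg1 hh1 ihg ihh =>
      intro n hn a ha y hy
      rw [hS] at hg1 hh1
      obtain ⟨a', y', h1, h2, h3⟩ := off_map φ hφ K p x hp hK h hh1 n a ha y
      rw [map_mul]
      refine not_act_mul (ihh hh1 n hn a ha y hy) ?_
      rw [h3]
      exact ihg hg1 n hn a' h1 y' (by omega)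
    | inv g hg1 ihg =>
      intro n hn a ha y hy
      rw [hS] at hg1
      obtain ⟨a', y', h1, h2, h3⟩ := off_map φ hφ K p x hp hK g⁻¹ (K.inv_mem hg1) n a ha y
      rw [map_inv]
      refine not_act_inv ?_
      rw [← map_inv, h3]
      exact ihg hg1 n hn a' h1 y' (by omega)
  have hKfg : Group.FG K := (Group.fg_iff_subgroup_fg K).mpr (hfg K)
  have hYfin : Finite {y : List X // y.length = D1 + 1} := (levels_finite (D1 + 1)).to_subtype
  let ψ : ℕ → (K →* Equiv.Perm {y : List X // y.length = D1 + 1}) := fun n =>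
    @MulAction.toPermHom K {y : List X // y.length = D1 + 1} _
      (belowAct φ K (p n) (fun g hg => hK g hg n) hφ (D1 + 1))
  have hfinhom : Finite (K →* Equiv.Perm {y : List X // y.length = D1 + 1}) := finite_hom
  let M : Subgroup K := ⨅ f : Set.range ψ, (f.1).ker
  have hMfi : M.FiniteIndex := Subgroup.finiteIndex_iInf fun f => inferInstance
  have hMsec : ∀ g ∈ M, ∀ n, ∀ y : List X, y.length = D1 + 1 →
      φ (g : K) (p n ++ y) = p n ++ y := by
    intro g hg n y hy
    have h1 : g ∈ (ψ n).ker := (Subgroup.mem_iInf.mp hg) ⟨ψ n, n, rfl⟩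
    rw [MonoidHom.mem_ker] at h1
    have h2 := congrArg (fun e => e ⟨y, hy⟩) h1
    have h3 : sec (φ (g : K)) (p n) y = y := congrArg Subtype.val h2
    rw [(hφ _).app, hK _ g.2 n, h3]
  have hMFx : ∀ g ∈ M, ((g : K) : G) ∈ Fx φ v := by
    intro g hg
    rw [← hF N1]
    have key : ∀ (e : List X) (n : ℕ), N1 ≤ n → φ (g : K) (p n ++ e) = p n ++ e := by
      intro e
      induction e with
      | nil => intro n _; rw [List.append_nil]; exact hK _ g.2 n
      | cons a e ih =>
        intro n hn
        by_cases hax : a = x n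
        · have h1 : p n ++ a :: e = p (n + 1) ++ e := by rw [hp, hax]; simp
          rw [h1]
          exact ih (n + 1) (by omega)
        · rcases le_or_gt D1 e.length with hle | hlt
          · have h1 := hMsec g hg n (a :: e.take D1) (by
              rw [List.length_cons, List.length_take]; omega)
            have h2 := hall _ g.2 n hn a hax (e.take D1) (by rw [List.length_take]; omega)
            have h3 := not_act_iff.mp h2 (e.drop D1)
            have e1 : p n ++ a :: e.take D1 ++ e.drop D1 = p n ++ a :: e := by simp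
            rw [e1, h1, e1] at h3
            exact h3
          · have h1 := hMsec g hg n (a :: (e ++ List.replicate (D1 - e.length) a)) (by
              simp; omega)
            have h2 := (hφ (g : K)).tak (p n ++ a :: (e ++ List.replicate (D1 - e.length) a))
              (p n ++ a :: e).length
            rw [h1] at h2
            have e1 : p n ++ a :: (e ++ List.replicate (D1 - e.length) a) =
                (p n ++ a :: e) ++ List.replicate (D1 - e.length) a := by simp
            rw [e1, List.take_left] at h2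
            exact h2
    exact fun e => key e N1 le_rfl
  refine ⟨M.map K.subtype, ?_, ?_⟩
  · rw [Subgroup.finiteIndex_iff, Subgroup.index_map_subtype]
    exact Nat.mul_ne_zero hMfi.index_ne_zero (St_finiteIndex φ hφ u).index_ne_zero
  · rintro _ ⟨a, ha, rfl⟩ _ ⟨b, hb', rfl⟩
    have h1 := hMFx a ha
    have h2 := hMFx b hb'
    exact (Fx φ v).mul_mem ((Fx φ v).mul_mem ((Fx φ v).mul_mem h1 h2) ((Fx φ v).inv_mem h1))
      ((Fx φ v).inv_mem h2)

end Pool.Agent.NG.Tree
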